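import Pool.Agent.helper28.LT.Defs

set_option autoImplicit false

/-!
# Lower bound for the 5-torsion: classes, families of tuples
-/

namespace Pool.Agent.helper28.LT

open Finset NumberField Pool.Agent.helper3.FT Pool.Agent.helper47.RA

theorem Tup.Z_ne {κ s n k : ℕ} {m g Z Λ D : ℤ} (h : Tup κ s n k m g Z Λ D) : Z ≠ 0 := by
  rintro rfl
  exact h.r1 (dvd_zero _)

theorem Tup.Λ_ne {κ s n k : ℕ} {m g Z Λ D : ℤ} (h : Tup κ s n k m g Z Λ D) : Λ ≠ 0 := by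
  rintro rfl
  exact h.r3 (dvd_zero _)

theorem Tup.κ_pos {κ s n k : ℕ} {m g Z Λ D : ℤ} (h : Tup κ s n k m g Z Λ D) : 1 ≤ κ := by
  have h1 := h.hn.pos
  have h2 := h.n2
  omega

theorem Tup.Z_pos {κ s n k : ℕ} {m g Z Λ D : ℤ} (h : Tup κ s n k m g Z Λ D) : 0 < Z := by
  have h1 : (0 : ℤ) ≤ 64 * (κ : ℤ) ^ 2 * s ^ 2 := by positivity
  exact lt_of_le_of_ne (h1.trans h.Z1) (Ne.symm h.Z_ne)

theorem Tup.Λ_pos {κ s n k : ℕ} {m g Z Λ D : ℤ} (h : Tup κ s n k m g Z Λ D) : 0 < Λ := by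
  have h1 : (0 : ℤ) ≤ 15 * (κ : ℤ) ^ 2 * s ^ 2 := by positivity
  exact lt_of_le_of_ne (h1.trans h.L1) (Ne.symm h.Λ_ne)

theorem Tup.s_pos {κ s n k : ℕ} {m g Z Λ D : ℤ} (h : Tup κ s n k m g Z Λ D) : 1 ≤ s := by
  rcases Nat.eq_zero_or_pos s with h0 | h0
  · have h1 := h.Z2
    have h2 := h.Z_pos
    rw [h0] at h1
    simp at h1
    omega
  · exact h0

variable {K : Type} [Field K] [NumberField K] {Q : QF K} {κ s f : ℕ}

theorem Fac.a_ne {E : El Q κ s f} (F : Fac E) : F.a ≠ ⊥ := by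
  intro h
  have h1 := F.na
  rw [h] at h1
  have h2 : (⊥ : Ideal (𝓞 K)) * Q.bar ⊥ = ⊥ := by simp
  rw [h2] at h1
  have h3 := Ideal.span_singleton_eq_bot.1 h1.symm
  have h4 : F.Zg = 0 := by exact_mod_cast h3
  have h5 := F.hZ
  rw [h4] at h5
  exact E.tup.Z_ne (by simpa using h5)

theorem Fac.a_mem {E : El Q κ s f} (F : Fac E) : F.a ∈ nonZeroDivisors (Ideal (𝓞 K)) :=
  mem_nonZeroDivisors_of_ne_zero F.a_ne

/-- the class of `a` -/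
noncomputable def Fac.cl {E : El Q κ s f} (F : Fac E) : ClassGroup (𝓞 K) :=
  ClassGroup.mk0 ⟨F.a, F.a_mem⟩

/-- a family of different tuples with common data -/
structure Part (Q : QF K) (κ s f : ℕ) (ι : Type) where
  E : ι → El Q κ s f
  F : ∀ i, Fac (E i)
  inj : ∀ i j, (E i).tpl = (E j).tpl → i = j
  Zb : ℕ
  Λb : ℕ
  A : Ideal (𝓞 K)
  B : Ideal (𝓞 K)
  C : ClassGroup (𝓞 K)
  hZb : ∀ i, (F i).Zb = Zb
  hΛb : ∀ i, (F i).Λb = Λb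
  hA : ∀ i, (F i).A = A
  hB : ∀ i, (F i).B = B
  hC : ∀ i, (F i).cl = C

open Classical in
/-- the upper bound of the FT project (imaginary case) -/
def Upper (h : ℤ → ℕ) : Prop := ∀ ε : ℝ, 0 < ε → ∃ C : ℝ, 1 ≤ C ∧ ∀ N : ℕ, 1 ≤ N →
  ∑ D ∈ (Ioo (-(N : ℤ)) 0).filter IsFund, (h D : ℝ) ≤ C * (N : ℝ) ^ (1 + ε)

end Pool.Agent.helper28.LT
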