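import Pool.Agent.helper3.FT.Defs
import Pool.Agent.helper3.FT.AlgDefs

set_option autoImplicit false

/-!
# Lower bound for the 5-torsion of imaginary quadratic fields: definitions
-/

namespace Pool.Agent.helper28.LT

open Finset NumberField Pool.Agent.helper3.FT Pool.Agent.helper47.RA

/-! ## PART A: counting -/

/-- twisted residues; for `q = 1` this is `Res` -/
structure ResQ (n k q α β γ : ℤ) : Prop where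
  hα : n ^ 3 ∣ α
  hβ : n ^ 3 ∣ β * k ^ 2 + 1
  hγ : n ^ 3 ∣ q * γ * k ^ 4 - n ^ 2
  kα : k ∣ α * n ^ 2 - q
  kβ : k ∣ β
  kγ : k ∣ γ

/-- integers of absolute value at most `M` in a residue class modulo `P` -/
noncomputable def cls (M P : ℕ) (r : ℤ) : Finset ℤ := (Icc (-(M : ℤ)) M).filter (fun m => (P : ℤ) ∣ m - r)

/-- exponential sum over residue classes -/
noncomputable def ESc (M G P : ℕ) (r r' : ℤ) (a b c : ℝ) : ℂ :=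
  ∑ m ∈ cls M P r, ∑ g ∈ cls G P r', e (a * m ^ 2 + b * m * g + c * g ^ 2)

/-- the solutions `(m, g, z)` of the twisted congruences for one pair `(n, k)` -/
noncomputable def fib (q P M G : ℕ) (r r' c : ℤ) (V n k : ℕ) : Finset (ℤ × ℤ × ℤ) :=
  (cls M P r ×ˢ cls G P r' ×ˢ Icc c (c + V)).filter (fun t =>
    ((n : ℤ) ^ 3 ∣ q * t.2.2 * (k : ℤ) ^ 4 + q * t.1 * t.2.1 * (k : ℤ) ^ 2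
        - t.2.1 ^ 2 * (n : ℤ) ^ 2) ∧ ((k : ℤ) ∣ q * t.1 ^ 2 - t.2.2 * (n : ℤ) ^ 2))

/-- the box for `(A, A', B, X)` -/
noncomputable def vboxQ (q L : ℕ) : Finset (ℤ × ℤ × ℤ × ℤ) :=
  Icc (-(34 * q * L : ℤ)) (34 * q * L) ×ˢ Icc (-(34 * q * L : ℤ)) (34 * q * L) ×ˢ
    Icc (-(34 * q * L : ℤ)) (34 * q * L) ×ˢ Icc (-(L : ℤ)) L

/-- the twisted dual points: `h ∈ [P, 2 P)` -/
noncomputable def dualSetQ (K y P q L : ℕ) : Finset (ℕ × (ℕ × ℕ) × (ℤ × ℤ × ℤ × ℤ)) :=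
  (Ico P (2 * P) ×ˢ pairs K K y ×ˢ vboxQ q L).filter
    (fun t => Nat.Coprime t.1 (5 * (t.2.1.1 * t.2.1.2)) ∧
      ((t.1 : ℤ) ∣ F1 t.2.2.1 t.2.2.2.1 t.2.2.2.2.1 t.2.1.1 t.2.1.2) ∧
      ((t.1 : ℤ) ∣ F2 t.2.2.2.1 t.2.2.2.2.1 (q * t.2.2.2.2.2) t.2.1.1 t.2.1.2) ∧
      (F1 t.2.2.1 t.2.2.2.1 t.2.2.2.2.1 t.2.1.1 t.2.1.2 ≠ 0 ∨
        F2 t.2.2.2.1 t.2.2.2.2.1 (q * t.2.2.2.2.2) t.2.1.1 t.2.1.2 ≠ 0))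

/-- number of near points at the frequency `h` for the pair `p` -/
noncomputable def nearN (M G : ℕ) (r : ℕ × ℕ → ℤ × ℤ × ℤ) (h : ℕ) (p : ℕ × ℕ) : ℝ :=
  ((nearPts M G (h * (r p).1 / ((p.1 : ℝ) ^ 3 * p.2)) (h * (r p).2.1 / ((p.1 : ℝ) ^ 3 * p.2))
    (h * (r p).2.2 / ((p.1 : ℝ) ^ 3 * p.2))).card : ℝ)

/-- ordered pairs of distinct primes in `(4 κ, 8 κ]` -/
noncomputable def PP (κ : ℕ) : Finset (ℕ × ℕ) :=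
  (Ioc (4 * κ) (8 * κ) ×ˢ Ioc (4 * κ) (8 * κ)).filter
    (fun p => p.1.Prime ∧ p.2.Prime ∧ p.1 ≠ p.2)

/-! ## Tuples `((n, k), (m, g, Z))` -/

/-- tuples `((n, k), (m, g, Z))` -/
abbrev Tpl : Type := (ℕ × ℕ) × (ℤ × ℤ × ℤ)

/-- all tuples of size `(κ, s)` with `m = g = 1` modulo `P` -/
noncomputable def TT (κ s P : ℕ) : Finset Tpl :=
  (PP κ ×ˢ (cls (κ ^ 2 * s) P 1 ×ˢ cls (κ ^ 2 * s) P 1 ×ˢ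
    Icc (64 * (κ : ℤ) ^ 2 * s ^ 2) (128 * (κ : ℤ) ^ 2 * s ^ 2))).filter
    (fun t => ((t.1.1 : ℤ) ^ 3 ∣ t.2.2.2 * (t.1.2 : ℤ) ^ 4 + t.2.1 * t.2.2.1 * (t.1.2 : ℤ) ^ 2
        - t.2.2.1 ^ 2 * (t.1.1 : ℤ) ^ 2) ∧
      ((t.1.2 : ℤ) ∣ t.2.1 ^ 2 - t.2.2.2 * (t.1.1 : ℤ) ^ 2))

/-- `Λ` -/
def lam (t : Tpl) : ℤ := (t.2.1 * t.2.2.1 + t.2.2.2 * (t.1.2 : ℤ) ^ 2) / (t.1.1 : ℤ) ^ 2

/-- the discriminant -/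
def dis (t : Tpl) : ℤ :=
  ((t.2.2.2 * t.2.2.1 - lam t * t.2.1) ^ 2 - 4 * t.2.2.2 ^ 2 * lam t * (t.1.2 : ℤ) ^ 2) /
    ((t.1.1 : ℤ) * t.1.2) ^ 2

/-- bad primes -/
def Bad (t : Tpl) (q : ℕ) : Prop :=
  q.Prime ∧ q ≠ t.1.1 ∧ q ≠ t.1.2 ∧ (q : ℤ) ∣ t.2.2.2 ∧ (q : ℤ) ∣ t.2.1 * t.2.2.1

/-- rare tuples -/
def Rare (t : Tpl) : Prop :=
  (t.1.1 : ℤ) ^ 2 ∣ t.2.2.2 ∨ (t.1.2 : ℤ) ^ 2 ∣ t.2.2.2 ∨ (t.1.1 : ℤ) ^ 2 ∣ lam t ∨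
    (t.1.2 : ℤ) ^ 2 ∣ lam t ∨ ((t.1.1 : ℤ) ∣ t.2.2.2 ∧ (t.1.1 : ℤ) ∣ t.2.1)

/-- the arithmetic of one (not rare) tuple of discriminant `D` -/
structure Tup (κ s n k : ℕ) (m g Z Λ D : ℤ) : Prop where
  hn : n.Prime
  hk : k.Prime
  hnk : n ≠ k
  n1 : 4 * κ < n
  n2 : n ≤ 8 * κ
  k1 : 4 * κ < k
  k2 : k ≤ 8 * κ
  hm : |m| ≤ (κ : ℤ) ^ 2 * s
  hg : |g| ≤ (κ : ℤ) ^ 2 * s
  Z1 : 64 * (κ : ℤ) ^ 2 * s ^ 2 ≤ Z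
  Z2 : Z ≤ 128 * (κ : ℤ) ^ 2 * s ^ 2
  L1 : 15 * (κ : ℤ) ^ 2 * s ^ 2 ≤ Λ
  L2 : Λ ≤ 513 * (κ : ℤ) ^ 2 * s ^ 2
  e1 : m * g = Λ * (n : ℤ) ^ 2 - Z * (k : ℤ) ^ 2
  e2 : (k : ℤ) ∣ m ^ 2 - Z * (n : ℤ) ^ 2
  e3 : (n : ℤ) ∣ g ^ 2 - Λ * (k : ℤ) ^ 2
  e4 : D * ((n : ℤ) * k) ^ 2 = (Z * g - Λ * m) ^ 2 - 4 * Z ^ 2 * Λ * (k : ℤ) ^ 2
  D1 : 859 * (κ : ℤ) ^ 4 * s ^ 6 ≤ -D
  D2 : -D ≤ 2 ^ 22 * (κ : ℤ) ^ 4 * s ^ 6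
  D4 : D % 4 = 0 ∨ D % 4 = 1
  r1 : ¬ (n : ℤ) ^ 2 ∣ Z
  r2 : ¬ (k : ℤ) ^ 2 ∣ Z
  r3 : ¬ (n : ℤ) ^ 2 ∣ Λ
  r4 : ¬ (k : ℤ) ^ 2 ∣ Λ
  r5 : ¬ ((n : ℤ) ∣ Z ∧ (n : ℤ) ∣ m)

/-- a tuple has discriminant `D` (and is not rare) -/
def TupD (κ s : ℕ) (t : Tpl) (D : ℤ) : Prop :=
  Tup κ s t.1.1 t.1.2 t.2.1 t.2.2.1 t.2.2.2 (lam t) D

/-! ## PART B: quadratic fields -/

variable {K : Type} [Field K] [NumberField K]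

/-- the elements attached to a tuple of discriminant `f ^ 2 * Q.D` -/
structure El (Q : QF K) (κ s f : ℕ) where
  n : ℕ
  k : ℕ
  m : ℤ
  g : ℤ
  Z : ℤ
  Λ : ℤ
  y : ℤ
  α : 𝓞 K
  β : 𝓞 K
  γ : 𝓞 K
  u : 𝓞 K
  tup : Tup κ s n k m g Z Λ ((f : ℤ) ^ 2 * Q.D)
  hy : (k : ℤ) * y = Z * (n : ℤ) ^ 2 - m ^ 2
  Yβ : Q.Y β = f * n
  Yγ : Q.Y γ = f * k
  Yα : Q.Y α = f * y
  nβ : β * Q.cj β = Z ^ 2 * Λ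
  nγ : γ * Q.cj γ = Z * Λ ^ 2
  nα : α * Q.cj α = Z ^ 5
  e3 : β ^ 2 * Q.cj γ = Λ ^ 2 * α
  e5 : α * Q.cj β = Z ^ 2 * u
  trβ : (k : 𝓞 K) * (β + Q.cj β) = ((Z * g - Λ * m : ℤ) : 𝓞 K)
  trγ : (n : 𝓞 K) * (γ + Q.cj γ) = ((Z * g + Λ * m : ℤ) : 𝓞 K)

/-- the tuple of the elements -/
def El.tpl {Q : QF K} {κ s f : ℕ} (E : El Q κ s f) : Tpl := ((E.n, E.k), (E.m, E.g, E.Z))

/-- the factorizations of the elements -/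
structure Fac {Q : QF K} {κ s f : ℕ} (E : El Q κ s f) where
  Zb : ℕ
  Zg : ℕ
  Λb : ℕ
  Λg : ℕ
  hZ : E.Z = Zb * Zg
  hΛ : E.Λ = Λb * Λg
  cZ : Nat.Coprime Zg f
  cΛ : Nat.Coprime Λg f
  pZ : ∀ p : ℕ, p.Prime → p ∣ Zb → p ∣ f
  pΛ : ∀ p : ℕ, p.Prime → p ∣ Λb → p ∣ f
  a : Ideal (𝓞 K)
  A : Ideal (𝓞 K)
  L : Ideal (𝓞 K)
  B : Ideal (𝓞 K)
  iα : Ideal.span {E.α} = a ^ 5 * A
  iβ : Ideal.span {E.β} = a ^ 2 * L * B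
  na : a * Q.bar a = Ideal.span {(Zg : 𝓞 K)}
  nA : A * Q.bar A = Ideal.span {((Zb : 𝓞 K)) ^ 5}
  nL : L * Q.bar L = Ideal.span {(Λg : 𝓞 K)}
  nB : B * Q.bar B = Ideal.span {(Zb : 𝓞 K) ^ 2 * Λb}
  ca : a ⊔ Q.bar a = ⊤

/-- product of the prime divisors -/
def rad (f : ℕ) : ℕ := ∏ p ∈ f.primeFactors, p

/-- the number of classes of exponent 5 -/
noncomputable def h5 (K : Type) [Field K] [NumberField K] : ℕ :=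
  Nat.card {x : ClassGroup (𝓞 K) // x ^ 5 = 1}

end Pool.Agent.helper28.LT
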