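import Pool.Agent.helper28.LT.SU4
import Pool.Agent.helper3.FT.Fin

set_option autoImplicit false

/-!
# The final lower bound
-/

namespace Pool.Agent.helper28.LT

open Finset NumberField Pool.Agent.helper3.FT Pool.Agent.helper47.RA

/-- the upper bound of the FT project -/
theorem upper_of (h : ℤ → ℕ) (hh : ∀ (K : Type) [Field K] [NumberField K],
    Module.finrank ℚ K = 2 → h (NumberField.discr K) = h5 K) : Upper h := by
  classical
  intro ε hε
  obtain ⟨C, hC, H⟩ := main_bound ε hε
  refine ⟨max C 1, le_max_right _ _, ?_⟩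
  intro N hN
  refine (H h (fun K _ _ h1 => hh K h1) N _ ?_).trans ?_
  · intro D hD
    rw [mem_filter, mem_Ioo] at hD
    exact ⟨hD.2, by rw [abs_lt]; omega⟩
  · exact mul_le_mul_of_nonneg_right (le_max_left _ _) (by positivity)

open Classical in
/-- the lower bound -/
theorem lower_bound (h : ℤ → ℕ) (hh : ∀ (K : Type) [Field K] [NumberField K],
    Module.finrank ℚ K = 2 → h (NumberField.discr K) = h5 K) (ε : ℝ) (hε : 0 < ε) :
    ∀ᶠ N : ℕ in Filter.atTop, (N : ℝ) ^ (1 - ε) ≤
      ∑ D ∈ (Ioo (-(N : ℤ)) 0).filter IsFund, ((h D : ℝ) - 1) := by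
  rw [Filter.eventually_atTop]
  exact main_ineq h hh (upper_of h hh) ε hε

end Pool.Agent.helper28.LT
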