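import Pool.Agent.helper62.LT.LO
import Pool.Agent.helper18.LT.BQF
import Pool.Agent.helper57.LT.PC

set_option autoImplicit false

/-!
# Many tuples without small bad primes
-/

namespace Pool.Agent.helper28.LT

open Finset NumberField Pool.Agent.helper3.FT Pool.Agent.helper47.RA Filter

lemma PA_not_bad (κ s P q : ℕ) (t : Tpl) (ht : t ∈ TT κ s P) (hqP : q ∣ P) : ¬ Bad t q := by
  rintro ⟨hq, _, _, _, h4⟩
  unfold TT cls at ht
  rw [mem_filter, mem_product, mem_product, mem_product, mem_filter, mem_filter] at ht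
  have h1 := ht.1.2.1.2
  have h2 := ht.1.2.2.1.2
  have hqP' : (q : ℤ) ∣ P := by exact_mod_cast hqP
  have hq' : Prime (q : ℤ) := Nat.prime_iff_prime_int.1 hq
  rcases hq'.dvd_or_dvd h4 with h5 | h5
  · have h6 := dvd_sub h5 (hqP'.trans h1)
    have h7 : t.2.1 - (t.2.1 - 1) = 1 := by ring
    rw [h7] at h6
    exact hq'.not_isUnit (isUnit_of_dvd_one h6)
  · have h6 := dvd_sub h5 (hqP'.trans h2)
    have h7 : t.2.2.1 - (t.2.2.1 - 1) = 1 := by ring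
    rw [h7] at h6
    exact hq'.not_isUnit (isUnit_of_dvd_one h6)

lemma PA_prime_dvd (q : ℕ) (hq : q.Prime) (h : q ≤ 10 ^ 6) : q ∣ primorial (10 ^ 6) := by
  unfold primorial
  exact Finset.dvd_prod_of_mem (fun p => p) (mem_filter.2 ⟨mem_range.2 (by omega), hq⟩)

open Classical in
/-- the union bound -/
lemma PA_union (κ s P W : ℕ) :
    ((TT κ s P).card : ℝ) - ∑ q ∈ (range W).filter (fun q => q.Prime ∧ ¬ q ∣ P),
      (((TT κ s P).filter (fun t => Bad t q)).card : ℝ) ≤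
    (((TT κ s P).filter (fun t => ∀ q < W, ¬ Bad t q)).card : ℝ) := by
  have h1 : (TT κ s P).card = ((TT κ s P).filter (fun t => ∀ q < W, ¬ Bad t q)).card +
      ((TT κ s P).filter (fun t => ¬ ∀ q < W, ¬ Bad t q)).card :=
    (card_filter_add_card_filter_not _).symm
  have h2 : (TT κ s P).filter (fun t => ¬ ∀ q < W, ¬ Bad t q) ⊆
      ((range W).filter (fun q => q.Prime ∧ ¬ q ∣ P)).biUnion
        (fun q => (TT κ s P).filter (fun t => Bad t q)) := by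
    intro t ht
    rw [mem_filter] at ht
    obtain ⟨ht1, ht2⟩ := ht
    push Not at ht2
    obtain ⟨q, hqW, hq⟩ := ht2
    rw [mem_biUnion]
    refine ⟨q, ?_, mem_filter.2 ⟨ht1, hq⟩⟩
    rw [mem_filter, mem_range]
    exact ⟨hqW, hq.1, fun h => PA_not_bad κ s P q t ht1 h hq⟩
  have h3 : ((TT κ s P).filter (fun t => ¬ ∀ q < W, ¬ Bad t q)).card ≤
      ∑ q ∈ (range W).filter (fun q => q.Prime ∧ ¬ q ∣ P),
        ((TT κ s P).filter (fun t => Bad t q)).card :=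
    (card_le_card h2).trans card_biUnion_le
  have h4 : ((TT κ s P).card : ℝ) = (((TT κ s P).filter (fun t => ∀ q < W, ¬ Bad t q)).card : ℝ) +
      (((TT κ s P).filter (fun t => ¬ ∀ q < W, ¬ Bad t q)).card : ℝ) := by exact_mod_cast h1
  have h5 : (((TT κ s P).filter (fun t => ¬ ∀ q < W, ¬ Bad t q)).card : ℝ) ≤
      ∑ q ∈ (range W).filter (fun q => q.Prime ∧ ¬ q ∣ P),
        (((TT κ s P).filter (fun t => Bad t q)).card : ℝ) := by exact_mod_cast h3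
  linarith

lemma PA_sum_inv (W : ℕ) : ∑ q ∈ (range W).filter (fun q => q.Prime ∧ ¬ q ∣ primorial (10 ^ 6)),
    (1 : ℝ) / (q : ℝ) ^ 2 ≤ 2 / (10 ^ 6 + 1) := by
  have h1 : (range W).filter (fun q => q.Prime ∧ ¬ q ∣ primorial (10 ^ 6)) ⊆ Ioo (10 ^ 6) W := by
    intro q hq
    rw [mem_filter, mem_range] at hq
    rw [mem_Ioo]
    refine ⟨?_, hq.1⟩
    by_contra hc
    exact hq.2.2 (PA_prime_dvd q hq.2.1 (by omega))
  calc _ ≤ ∑ q ∈ Ioo (10 ^ 6) W, (1 : ℝ) / (q : ℝ) ^ 2 :=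
        Finset.sum_le_sum_of_subset_of_nonneg h1 fun _ _ _ => by positivity
    _ = ∑ q ∈ Ioo (10 ^ 6) W, ((q : ℝ) ^ 2)⁻¹ := by
        refine Finset.sum_congr rfl fun _ _ => one_div _
    _ ≤ 2 / (((10 ^ 6 : ℕ) : ℝ) + 1) := sum_Ioo_inv_sq_le (10 ^ 6) W
    _ = _ := by norm_num

open Classical in
/-- PA -/
theorem partA : ∃ P : ℕ, 2 ≤ P ∧ ∃ c : ℝ, 0 < c ∧ ∀ η : ℝ, 0 < η → ∃ κ₀ : ℕ, ∀ κ w : ℕ,
    κ₀ ≤ κ → (κ : ℝ) ^ η ≤ w → w ^ 100 ≤ κ →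
    c * (κ : ℝ) ^ 4 * (w : ℝ) ^ 16 / (Real.log κ) ^ 2 ≤
      (((TT κ (w ^ 4) P).filter (fun t => ∀ q < w ^ 9, ¬ Bad t q)).card : ℝ) := by
  obtain ⟨P, hP2, hPsum⟩ : ∃ P : ℕ, 2 ≤ P ∧ ∀ W : ℕ,
      ∑ q ∈ (range W).filter (fun q => q.Prime ∧ ¬ q ∣ P), (1 : ℝ) / (q : ℝ) ^ 2 ≤
        2 / (10 ^ 6 + 1) :=
    ⟨primorial (10 ^ 6), Nat.le_of_dvd (primorial_pos _)
      (PA_prime_dvd 2 Nat.prime_two (by norm_num)), PA_sum_inv⟩
  have hP1 : 1 ≤ P := by omega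
  obtain ⟨c0, hc0, κ1, hPP⟩ := PP_card
  refine ⟨P, hP2, c0 / (1800 * (P : ℝ) ^ 2), by positivity, ?_⟩
  intro η hη
  obtain ⟨C1, hC1, hlow⟩ := low_total P hP1 η hη
  obtain ⟨C2, hC2, hbad⟩ := bad_q P hP1 η hη
  -- asymptotic conditions
  have ev1 : ∀ᶠ κ : ℕ in atTop, (Real.log κ) ^ 2 ≤ (κ : ℝ) ^ (η / 2) := by
    have h1 := (isLittleO_log_rpow_atTop (show 0 < η / 4 by positivity)).bound
      (show (0 : ℝ) < 1 by norm_num)
    have h2 := tendsto_natCast_atTop_atTop (R := ℝ) |>.eventually h1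
    filter_upwards [h2, eventually_ge_atTop 1] with N hN h1N
    have hN1 : (1 : ℝ) ≤ N := by exact_mod_cast h1N
    have hl : 0 ≤ Real.log N := Real.log_nonneg hN1
    rw [one_mul, Real.norm_of_nonneg hl, Real.norm_of_nonneg (by positivity)] at hN
    calc (Real.log N) ^ 2 ≤ ((N : ℝ) ^ (η / 4)) ^ 2 := pow_le_pow_left₀ hl hN 2
      _ = (N : ℝ) ^ (η / 2) := by
        rw [← Real.rpow_natCast, ← Real.rpow_mul (by linarith)]
        congr 1; push_cast; ring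
  have ev2 : ∀ᶠ κ : ℕ in atTop, 1800 * (P : ℝ) ^ 2 * (C1 + 2 * C2) / c0 ≤ (κ : ℝ) ^ (η / 2) :=
    ((tendsto_rpow_atTop (show 0 < η / 2 by positivity)).comp
      (tendsto_natCast_atTop_atTop (R := ℝ))).eventually_ge_atTop _
  have ev3 : ∀ᶠ κ : ℕ in atTop, (2 : ℝ) ≤ (κ : ℝ) ^ η :=
    ((tendsto_rpow_atTop hη).comp
      (tendsto_natCast_atTop_atTop (R := ℝ))).eventually_ge_atTop _
  obtain ⟨κ2, hκ2⟩ := Filter.eventually_atTop.1 (ev1.and (ev2.and ev3))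
  refine ⟨max κ1 (max κ2 (max P 3)), ?_⟩
  intro κ w hκ hηw hwκ
  have hκ1 : κ1 ≤ κ := le_trans (le_max_left _ _) hκ
  have hκ2' : κ2 ≤ κ := le_trans (le_trans (le_max_left _ _) (le_max_right _ _)) hκ
  have hκP : P ≤ κ := le_trans (le_trans (le_max_left _ _)
    (le_trans (le_max_right _ _) (le_max_right _ _))) hκ
  have hκ3 : 3 ≤ κ := le_trans (le_trans (le_max_right _ _)
    (le_trans (le_max_right _ _) (le_max_right _ _))) hκ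
  obtain ⟨ev1, ev2, ev3⟩ := hκ2 κ hκ2'
  have hwR : (2 : ℝ) ≤ w := ev3.trans hηw
  have hw2 : 2 ≤ w := by exact_mod_cast hwR
  have hw1 : 1 ≤ w := by omega
  have hs : 1 ≤ w ^ 4 := Nat.one_le_pow _ _ hw1
  have hκs : 10 * (w ^ 4) ^ 2 ≤ κ := by
    refine le_trans ?_ hwκ
    calc 10 * (w ^ 4) ^ 2 ≤ 2 ^ 92 * w ^ 8 := by
          rw [← pow_mul]
          exact Nat.mul_le_mul (by norm_num) le_rfl
      _ ≤ w ^ 92 * w ^ 8 := Nat.mul_le_mul (Nat.pow_le_pow_left hw2 92) le_rfl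
      _ = w ^ 100 := by rw [← pow_add]
  have hwκ9 : w ^ 9 ≤ κ := (Nat.pow_le_pow_right hw1 (by norm_num)).trans hwκ
  have hκR : (3 : ℝ) ≤ κ := by exact_mod_cast hκ3
  have hκ0 : (0 : ℝ) < κ := by linarith
  have hw0 : (0 : ℝ) < w := by linarith
  have hPR : (2 : ℝ) ≤ P := by exact_mod_cast hP2
  have hL0 : 0 < Real.log κ := Real.log_pos (by linarith)
  set L := Real.log κ with hL
  set A : ℝ := ((PP κ).card : ℝ) with hA
  have hA0 : 0 ≤ A := Nat.cast_nonneg _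
  have l1 := hlow κ (w ^ 4) hs hκs hκP
  have l2 := PA_union κ (w ^ 4) P (w ^ 9)
  set Qs := (range (w ^ 9)).filter (fun q => q.Prime ∧ ¬ q ∣ P) with hQs
  have l3 : ∀ q ∈ Qs, (((TT κ (w ^ 4) P).filter (fun t => Bad t q)).card : ℝ) ≤
      A * (1024 * (κ : ℝ) ^ 2 * (w : ℝ) ^ 16 / (P : ℝ) ^ 2) * (1 / (q : ℝ) ^ 2) +
      C2 * ((κ : ℝ) ^ 4 * (w : ℝ) ^ 5 * (2 * w)) := by
    intro q hq
    rw [hQs, mem_filter, mem_range] at hq
    have hqκ : q ≤ κ := by omega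
    have hq0 : (0 : ℝ) < q := by exact_mod_cast hq.2.1.pos
    refine (hbad κ (w ^ 4) q hs hκs hκP hq.2.1 hqκ hq.2.2).trans ?_
    refine add_le_add ?_ ?_
    · refine le_of_eq ?_
      rw [hA]
      push_cast
      field_simp
    · rw [mul_assoc]
      refine mul_le_mul_of_nonneg_left ?_ (by linarith)
      have h1 : √(q : ℝ) ≤ (w : ℝ) ^ 5 := by
        rw [Real.sqrt_le_left (by positivity)]
        have h2 : (q : ℝ) ≤ (w : ℝ) ^ 9 := by exact_mod_cast hq.1.le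
        calc (q : ℝ) ≤ (w : ℝ) ^ 9 := h2
          _ ≤ (w : ℝ) ^ 10 := pow_le_pow_right₀ (by linarith) (by norm_num)
          _ = ((w : ℝ) ^ 5) ^ 2 := by ring
      have h2 : 1 + √(q : ℝ) / ((w ^ 4 : ℕ) : ℝ) ≤ 2 * w := by
        push_cast
        have h3 : √(q : ℝ) / (w : ℝ) ^ 4 ≤ w := by
          rw [div_le_iff₀ (by positivity)]
          calc √(q : ℝ) ≤ (w : ℝ) ^ 5 := h1
            _ = w * (w : ℝ) ^ 4 := by ring
        linarith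
      calc (κ : ℝ) ^ η * ((κ : ℝ) ^ 4 * ((w ^ 4 : ℕ) : ℝ) * (1 + √(q : ℝ) / ((w ^ 4 : ℕ) : ℝ)))
          ≤ w * ((κ : ℝ) ^ 4 * ((w ^ 4 : ℕ) : ℝ) * (2 * w)) := by
            refine mul_le_mul hηw ?_ (by positivity) hw0.le
            exact mul_le_mul_of_nonneg_left h2 (by positivity)
        _ = _ := by push_cast; ring
  have l4 : ∑ q ∈ Qs, (((TT κ (w ^ 4) P).filter (fun t => Bad t q)).card : ℝ) ≤
      A * (1024 * (κ : ℝ) ^ 2 * (w : ℝ) ^ 16 / (P : ℝ) ^ 2) * (2 / (10 ^ 6 + 1)) +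
      (w : ℝ) ^ 9 * (C2 * ((κ : ℝ) ^ 4 * (w : ℝ) ^ 5 * (2 * w))) := by
    refine (Finset.sum_le_sum l3).trans ?_
    rw [Finset.sum_add_distrib, ← Finset.mul_sum, Finset.sum_const, nsmul_eq_mul]
    refine add_le_add ?_ ?_
    · exact mul_le_mul_of_nonneg_left (hPsum (w ^ 9)) (by positivity)
    · refine mul_le_mul_of_nonneg_right ?_ (by positivity)
      have : Qs.card ≤ w ^ 9 := (card_filter_le _ _).trans (by rw [card_range])
      exact_mod_cast this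
  have l5 : A * ((κ : ℝ) ^ 2 * (w : ℝ) ^ 16 / (300 * (P : ℝ) ^ 2)) -
      C1 * ((κ : ℝ) ^ 4 * (w : ℝ) ^ 5) ≤ ((TT κ (w ^ 4) P).card : ℝ) := by
    refine le_trans ?_ l1
    have e1 : (((w ^ 4 : ℕ) : ℝ)) ^ 4 = (w : ℝ) ^ 16 := by push_cast; ring
    rw [e1]
    have h1 : C1 * (κ : ℝ) ^ η * ((κ : ℝ) ^ 4 * ((w ^ 4 : ℕ) : ℝ)) ≤ C1 * ((κ : ℝ) ^ 4 * (w : ℝ) ^ 5) := by
      calc C1 * (κ : ℝ) ^ η * ((κ : ℝ) ^ 4 * ((w ^ 4 : ℕ) : ℝ))
          ≤ C1 * w * ((κ : ℝ) ^ 4 * ((w ^ 4 : ℕ) : ℝ)) := by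
            refine mul_le_mul_of_nonneg_right ?_ (by positivity)
            exact mul_le_mul_of_nonneg_left hηw (by linarith)
        _ = _ := by push_cast; ring
    linarith
  -- main term
  set B : ℝ := (κ : ℝ) ^ 2 * (w : ℝ) ^ 16 / (P : ℝ) ^ 2 with hB
  have hB0 : 0 ≤ B := by positivity
  have l6 : A * B * (1 / 900) - (C1 + 2 * C2) * ((κ : ℝ) ^ 4 * (w : ℝ) ^ 15) ≤
      (((TT κ (w ^ 4) P).filter (fun t => ∀ q < w ^ 9, ¬ Bad t q)).card : ℝ) := by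
    have e1 : A * ((κ : ℝ) ^ 2 * (w : ℝ) ^ 16 / (300 * (P : ℝ) ^ 2)) = A * B * (1 / 300) := by
      rw [hB]; field_simp
    have e2 : A * (1024 * (κ : ℝ) ^ 2 * (w : ℝ) ^ 16 / (P : ℝ) ^ 2) * (2 / (10 ^ 6 + 1)) =
        A * B * (2048 / (10 ^ 6 + 1)) := by
      rw [hB]; field_simp; ring
    have e3 : (w : ℝ) ^ 9 * (C2 * ((κ : ℝ) ^ 4 * (w : ℝ) ^ 5 * (2 * w))) =
        2 * C2 * ((κ : ℝ) ^ 4 * (w : ℝ) ^ 15) := by ring
    have e4 : C1 * ((κ : ℝ) ^ 4 * (w : ℝ) ^ 5) ≤ C1 * ((κ : ℝ) ^ 4 * (w : ℝ) ^ 15) := by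
      refine mul_le_mul_of_nonneg_left ?_ (by linarith)
      refine mul_le_mul_of_nonneg_left ?_ (by positivity)
      exact pow_le_pow_right₀ (by linarith) (by norm_num)
    have e5 : A * B * (2048 / (10 ^ 6 + 1)) ≤ A * B * (1 / 450) :=
      mul_le_mul_of_nonneg_left (by norm_num) (by positivity)
    have e6 : A * B * (1 / 900) = A * B * (1 / 300) - A * B * (1 / 450) := by ring
    rw [e1] at l5
    rw [e2, e3] at l4
    linarith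
  have l7 : c0 * (κ : ℝ) ^ 4 * (w : ℝ) ^ 16 / (900 * (P : ℝ) ^ 2 * L ^ 2) ≤ A * B * (1 / 900) := by
    have h1 : c0 * ((κ : ℝ) / L) ^ 2 ≤ A := hPP κ hκ1
    have h2 : c0 * ((κ : ℝ) / L) ^ 2 * B * (1 / 900) ≤ A * B * (1 / 900) :=
      mul_le_mul_of_nonneg_right (mul_le_mul_of_nonneg_right h1 hB0) (by norm_num)
    refine le_trans (le_of_eq ?_) h2
    rw [hB]
    field_simp
  have l8 : (C1 + 2 * C2) * ((κ : ℝ) ^ 4 * (w : ℝ) ^ 15) ≤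
      c0 * (κ : ℝ) ^ 4 * (w : ℝ) ^ 16 / (1800 * (P : ℝ) ^ 2 * L ^ 2) := by
    rw [le_div_iff₀ (by positivity)]
    rw [div_le_iff₀ hc0] at ev2
    have h1 : 1800 * (P : ℝ) ^ 2 * (C1 + 2 * C2) * L ^ 2 ≤ c0 * w := by
      calc 1800 * (P : ℝ) ^ 2 * (C1 + 2 * C2) * L ^ 2
          ≤ ((κ : ℝ) ^ (η / 2) * c0) * (κ : ℝ) ^ (η / 2) := by
            refine mul_le_mul ev2 ev1 (by positivity) (by positivity)
        _ = c0 * ((κ : ℝ) ^ (η / 2) * (κ : ℝ) ^ (η / 2)) := by ring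
        _ = c0 * (κ : ℝ) ^ η := by rw [← Real.rpow_add hκ0]; congr 2; ring
        _ ≤ c0 * w := mul_le_mul_of_nonneg_left hηw hc0.le
    calc (C1 + 2 * C2) * ((κ : ℝ) ^ 4 * (w : ℝ) ^ 15) * (1800 * (P : ℝ) ^ 2 * L ^ 2)
        = (κ : ℝ) ^ 4 * (w : ℝ) ^ 15 * (1800 * (P : ℝ) ^ 2 * (C1 + 2 * C2) * L ^ 2) := by ring
      _ ≤ (κ : ℝ) ^ 4 * (w : ℝ) ^ 15 * (c0 * w) := mul_le_mul_of_nonneg_left h1 (by positivity)
      _ = _ := by ring
  have l9 : c0 / (1800 * (P : ℝ) ^ 2) * (κ : ℝ) ^ 4 * (w : ℝ) ^ 16 / L ^ 2 =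
      c0 * (κ : ℝ) ^ 4 * (w : ℝ) ^ 16 / (900 * (P : ℝ) ^ 2 * L ^ 2) -
      c0 * (κ : ℝ) ^ 4 * (w : ℝ) ^ 16 / (1800 * (P : ℝ) ^ 2 * L ^ 2) := by
    field_simp
    ring
  rw [l9]
  linarith

end Pool.Agent.helper28.LT
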