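import Pool.Agent.helper28.LT.Base
import Pool.Agent.helper65.FT.S

set_option autoImplicit false

namespace Pool.Agent.helper28.LT

open Finset NumberField Pool.Agent.helper3.FT Pool.Agent.helper47.RA

lemma RS_yy_le_rad (d : ℕ) : yy d ≤ rad d := by
  unfold yy rad
  apply Finset.prod_le_prod_of_subset_of_one_le' (Finset.erase_subset _ _)
  intro p hp _
  exact (Nat.prime_of_mem_primeFactors hp).one_lt.le

theorem rad_sum (ε : ℝ) (hε : 0 < ε) : ∃ C : ℝ, 1 ≤ C ∧ ∀ D : ℕ, 1 ≤ D →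
    ∑ d ∈ Icc 1 D, (1 : ℝ) / (rad d : ℝ) ≤ C * (D : ℝ) ^ ε := by
  obtain ⟨C, hC, h⟩ := yy_sum ε hε
  refine ⟨C, hC, fun D hD => le_trans (Finset.sum_le_sum ?_) (h D hD)⟩
  intro d _
  have h1 : (0 : ℝ) < yy d := by exact_mod_cast S_yy_pos d
  have h2 : (yy d : ℝ) ≤ rad d := by exact_mod_cast RS_yy_le_rad d
  exact one_div_le_one_div_of_le h1 h2

end Pool.Agent.helper28.LT
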