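import Pool.Agent.helper83.LT.FC
import Pool.Agent.helper28.LT.Base
import Pool.Agent.helper28.LT.RS
import Pool.Agent.helper47.FT.A0
import Pool.Agent.helper57.LT.DE
import Pool.Agent.helper57.LT.LF
import Pool.Agent.helper62.LT.TB
import Pool.Agent.helper54.LT.R4
import Pool.Agent.helper55.LT.Rare2

set_option autoImplicit false

/-!
# The sum over all tuples (one scale)
-/

namespace Pool.Agent.helper28.LT

open Finset NumberField Pool.Agent.helper3.FT Pool.Agent.helper47.RA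

/-- the hypothesis on `h` -/
def IsH5 (h : ℤ → ℕ) : Prop := ∀ (K : Type) [Field K] [NumberField K],
    Module.finrank ℚ K = 2 → h (NumberField.discr K) = h5 K

lemma SU_field (h : ℤ → ℕ) (hh : IsH5 h) (D : ℤ) (hD : IsFund D) (hneg : D < 0) :
    ∃ (K : Type) (_ : Field K) (_ : NumberField K) (Q : QF K), Module.finrank ℚ K = 2 ∧
      Q.D = D ∧ h5 K = h D := by
  obtain ⟨K, i1, i2, Q, h1, h2, h3⟩ := exists_QF_neg D hD hneg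
  exact ⟨K, i1, i2, Q, h1, h3, by rw [← h2, hh K h1]⟩

lemma SU_h_pos (h : ℤ → ℕ) (hh : IsH5 h) (D : ℤ) (hD : IsFund D) (hneg : D < 0) : 1 ≤ h D := by
  obtain ⟨K, i1, i2, Q, h1, h2, h3⟩ := SU_field h hh D hD hneg
  rw [← h3]
  unfold h5
  have : Nonempty {x : ClassGroup (𝓞 K) // x ^ 5 = 1} := ⟨⟨1, one_pow 5⟩⟩
  exact Nat.one_le_iff_ne_zero.2 Nat.card_pos.ne'

/-- the count for one `(f, D₀)` -/
lemma SU_one (h : ℤ → ℕ) (hh : IsH5 h) (ε : ℝ) (hε : 0 < ε) : ∃ C : ℝ, 1 ≤ C ∧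
    ∀ (D₀ : ℤ), IsFund D₀ → D₀ < 0 → ∀ κ s f : ℕ, 1 ≤ s →
    100 * s ^ 2 ≤ κ → 1 ≤ f → ∀ S : Finset Tpl, (∀ t ∈ S, TupD κ s t ((f : ℤ) ^ 2 * D₀)) →
    ((∀ t ∈ S, ∃ q : ℕ, q.Prime ∧ q ∣ f ∧ (q : ℤ) ∣ t.2.2.2) →
      (S.card : ℝ) ≤ C * (κ : ℝ) ^ ε * (f / rad f) ^ 2 * h D₀) ∧
    ((∀ t ∈ S, ∀ q : ℕ, q.Prime → q ∣ f → ¬ (q : ℤ) ∣ t.2.2.2) →
      (S.card : ℝ) ≤ C * (κ : ℝ) ^ ε * (f / rad f) * h D₀ ∧
      (512 * (κ : ℤ) ^ 2 * s ^ 2 < -D₀ →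
        (S.card : ℝ) ≤ C * (κ : ℝ) ^ ε * (f / rad f) * (h D₀ - 1))) := by
  obtain ⟨C, hC, hF⟩ := field_count ε hε
  refine ⟨C, hC, ?_⟩
  intro D₀ hD₀ hneg κ s f hs hκ hf S hS
  obtain ⟨K, i1, i2, Q, h1, h2, h3⟩ := SU_field h hh D₀ hD₀ hneg
  have := hF K Q h1 (by rw [h2]; exact hneg) κ s f hs hκ hf S (by rw [h2]; exact hS)
  rw [h3, h2] at this
  exact this

/-- facts of the discriminant decomposition of a tuple -/
structure SUdec (κ s : ℕ) (t : Tpl) (f : ℕ) (D₀ : ℤ) : Prop where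
  hf : 1 ≤ f
  fund : IsFund D₀
  neg : D₀ < 0
  tup : TupD κ s t ((f : ℤ) ^ 2 * D₀)

lemma SU_dec (κ s : ℕ) (hκ : 1 ≤ κ) (hs : 1 ≤ s) (t : Tpl) (ht : t ∈ TT κ s 1) (hr : ¬ Rare t) :
    ∃ (f : ℕ) (D₀ : ℤ), SUdec κ s t f D₀ := by
  have h1 := lam_dis κ s hκ hs t ht hr
  have hneg : dis t < 0 := by
    have h2 := h1.D1
    have h3 : (0 : ℤ) < 859 * (κ : ℤ) ^ 4 * s ^ 6 := by
      have : (0 : ℤ) < κ := by exact_mod_cast hκ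
      have : (0 : ℤ) < s := by exact_mod_cast hs
      positivity
    linarith
  obtain ⟨f, D₀, hf, hF, hD⟩ := exists_fund (dis t) hneg h1.D4
  refine ⟨f, D₀, hf, hF, ?_, ?_⟩
  · by_contra hc
    push_neg at hc
    have : 0 ≤ dis t := by rw [hD]; positivity
    linarith
  · rw [← hD]; exact h1

lemma SU_size {κ s : ℕ} {t : Tpl} {f : ℕ} {D₀ : ℤ} (h : SUdec κ s t f D₀) (N : ℕ)
    (hN : 2 ^ 22 * κ ^ 4 * s ^ 6 < N) : f ^ 2 ≤ N ∧ -D₀ ≤ ((N / f ^ 2 : ℕ) : ℤ) ∧ -D₀ < N := by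
  have h1 := h.tup.D2
  have hf := h.hf
  have hneg := h.neg
  have hN' : (2 : ℤ) ^ 22 * (κ : ℤ) ^ 4 * (s : ℤ) ^ 6 < N := by exact_mod_cast hN
  have h2 : (f : ℤ) ^ 2 * (-D₀) < N := by
    calc (f : ℤ) ^ 2 * (-D₀) = -((f : ℤ) ^ 2 * D₀) := by ring
      _ ≤ _ := h1
      _ < N := hN'
  obtain ⟨d, hd⟩ : ∃ d : ℕ, -D₀ = d := ⟨(-D₀).toNat, by omega⟩
  have hd1 : 1 ≤ d := by omega
  rw [hd] at h2 ⊢
  have h3 : f ^ 2 * d < N := by exact_mod_cast h2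
  have hf2 : 1 ≤ f ^ 2 := Nat.one_le_pow _ _ hf
  refine ⟨?_, ?_, ?_⟩
  · nlinarith
  · have : d ≤ N / f ^ 2 := by
      rw [Nat.le_div_iff_mul_le (by omega)]
      nlinarith
    exact_mod_cast this
  · have : d < N := by nlinarith
    exact_mod_cast this

end Pool.Agent.helper28.LT
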