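import Pool.Agent.helper28.LT.SU1

set_option autoImplicit false

/-!
# The sum over all tuples (one scale): the two error sums and the main sum
-/

namespace Pool.Agent.helper28.LT

open Finset NumberField Pool.Agent.helper3.FT Pool.Agent.helper47.RA

lemma rad_pos (f : ℕ) : 1 ≤ rad f := by
  unfold rad
  exact Nat.one_le_iff_ne_zero.2 (Finset.prod_ne_zero_iff.2 fun p hp =>
    (Nat.prime_of_mem_primeFactors hp).ne_zero)

lemma rad_dvd (f : ℕ) : rad f ∣ f := Nat.prod_primeFactors_dvd f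

lemma rad_le (f : ℕ) (hf : 1 ≤ f) : rad f ≤ f := Nat.le_of_dvd hf (rad_dvd f)

open Classical in
/-- the sum of `h` up to `N / f ^ 2` -/
lemma SU_upper (h : ℤ → ℕ) (hU : Upper h) (ε : ℝ) (hε : 0 < ε) : ∃ C : ℝ, 1 ≤ C ∧
    ∀ N f : ℕ, 1 ≤ f → f ^ 2 ≤ N →
    ∑ D ∈ (Ioo (-((N / f ^ 2 + 1 : ℕ) : ℤ)) 0).filter IsFund, (h D : ℝ) ≤
      C * (N : ℝ) ^ (1 + ε) / (f : ℝ) ^ 2 := by
  obtain ⟨C, hC, hU⟩ := hU ε hε
  refine ⟨C * 2 ^ (1 + ε), ?_, ?_⟩
  · have : (1 : ℝ) ≤ 2 ^ (1 + ε) := Real.one_le_rpow (by norm_num) (by linarith)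
    nlinarith
  intro N f hf hfN
  refine (hU (N / f ^ 2 + 1) (Nat.le_add_left 1 _)).trans ?_
  have hfR : (1 : ℝ) ≤ f := by exact_mod_cast hf
  have hfN' : (f : ℝ) ^ 2 ≤ N := by exact_mod_cast hfN
  have h1 : (((N / f ^ 2 + 1 : ℕ)) : ℝ) ≤ 2 * (N / (f : ℝ) ^ 2) := by
    push_cast
    have h2 : ((N / f ^ 2 : ℕ) : ℝ) ≤ (N : ℝ) / (f : ℝ) ^ 2 := by
      have := @Nat.cast_div_le ℝ _ _ _ N (f ^ 2)
      simpa using this
    have h3 : 1 ≤ (N : ℝ) / (f : ℝ) ^ 2 := by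
      rw [one_le_div (by positivity)]; exact hfN'
    have h4 : ((N : ℝ) / (f : ℝ) ^ 2) = ((N / f ^ 2 : ℝ)) := by norm_num
    linarith
  have h0 : (0 : ℝ) ≤ ((N / f ^ 2 + 1 : ℕ) : ℝ) := Nat.cast_nonneg _
  have h2 : (((N / f ^ 2 + 1 : ℕ)) : ℝ) ^ (1 + ε) ≤ 2 ^ (1 + ε) * ((N : ℝ) ^ (1 + ε) / (f : ℝ) ^ 2) := by
    calc (((N / f ^ 2 + 1 : ℕ)) : ℝ) ^ (1 + ε) ≤ (2 * (N / (f : ℝ) ^ 2)) ^ (1 + ε) :=
          Real.rpow_le_rpow h0 h1 (by linarith)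
      _ = 2 ^ (1 + ε) * ((N : ℝ) ^ (1 + ε) / ((f : ℝ) ^ 2) ^ (1 + ε)) := by
          rw [Real.mul_rpow (by norm_num) (by positivity), Real.div_rpow (by positivity) (by positivity)]
      _ ≤ 2 ^ (1 + ε) * ((N : ℝ) ^ (1 + ε) / (f : ℝ) ^ 2) := by
          refine mul_le_mul_of_nonneg_left ?_ (by positivity)
          refine div_le_div_of_nonneg_left (by positivity) (by positivity) ?_
          have h5 : (1 : ℝ) ≤ (f : ℝ) ^ 2 := one_le_pow₀ hfR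
          calc (f : ℝ) ^ 2 = ((f : ℝ) ^ 2) ^ (1 : ℝ) := (Real.rpow_one _).symm
            _ ≤ _ := Real.rpow_le_rpow_of_exponent_le h5 (by linarith)
  calc C * (((N / f ^ 2 + 1 : ℕ)) : ℝ) ^ (1 + ε)
      ≤ C * (2 ^ (1 + ε) * ((N : ℝ) ^ (1 + ε) / (f : ℝ) ^ 2)) :=
        mul_le_mul_of_nonneg_left h2 (by linarith)
    _ = _ := by ring

open Classical in
/-- a bound for the tuples with given `f`, summed over `D₀` -/
lemma SU_fibre (G : Finset Tpl) (κ s N : ℕ) (hN : 2 ^ 22 * κ ^ 4 * s ^ 6 < N) (ff : Tpl → ℕ)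
    (dd : Tpl → ℤ) (hG : ∀ t ∈ G, SUdec κ s t (ff t) (dd t)) (f : ℕ) (b : ℤ → ℝ) (hb : ∀ D, 0 ≤ b D)
    (hbd : ∀ D, IsFund D → D < 0 → 1 ≤ f → (((G.filter (fun t => ff t = f)).filter
      (fun t => dd t = D)).card : ℝ) ≤ b D) :
    ((G.filter (fun t => ff t = f)).card : ℝ) ≤
      ∑ D ∈ (Ioo (-((N / f ^ 2 + 1 : ℕ) : ℤ)) 0).filter IsFund, b D := by
  set S := G.filter (fun t => ff t = f) with hS
  rcases S.eq_empty_or_nonempty with he | ⟨t0, ht0⟩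
  · rw [he, card_empty, Nat.cast_zero]
    exact Finset.sum_nonneg fun _ _ => hb _
  have hf : 1 ≤ f := by
    rw [hS, mem_filter] at ht0
    rw [← ht0.2]; exact (hG t0 ht0.1).hf
  have hmaps : ∀ t ∈ S, dd t ∈ (Ioo (-((N / f ^ 2 + 1 : ℕ) : ℤ)) 0).filter IsFund := by
    intro t ht
    rw [hS, mem_filter] at ht
    have h1 := hG t ht.1
    obtain ⟨_, h3, _⟩ := SU_size h1 N hN
    rw [ht.2] at h3
    rw [mem_filter, mem_Ioo]
    refine ⟨⟨?_, h1.neg⟩, h1.fund⟩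
    push_cast at h3 ⊢
    linarith
  rw [Finset.card_eq_sum_card_fiberwise (f := dd) (t := (Ioo (-((N / f ^ 2 + 1 : ℕ) : ℤ)) 0).filter IsFund) hmaps,
    Nat.cast_sum]
  refine Finset.sum_le_sum fun D hD => ?_
  rw [mem_filter, mem_Ioo] at hD
  exact hbd D hD.2 hD.1.2 hf

open Classical in
/-- tuples with a common prime of `f` and `Z` -/
lemma SU_G1 (h : ℤ → ℕ) (hh : IsH5 h) (hU : Upper h) (ε : ℝ) (hε : 0 < ε) : ∃ C : ℝ, 1 ≤ C ∧
    ∀ (G : Finset Tpl) (κ s N W : ℕ) (ff : Tpl → ℕ) (dd : Tpl → ℤ), 1 ≤ κ → 1 ≤ s →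
    100 * s ^ 2 ≤ κ → 1 ≤ W → 2 ^ 22 * κ ^ 4 * s ^ 6 < N →
    (∀ t ∈ G, SUdec κ s t (ff t) (dd t)) →
    (∀ t ∈ G, ∃ q : ℕ, q.Prime ∧ q ∣ ff t ∧ (q : ℤ) ∣ t.2.2.2) →
    (∀ t ∈ G, W ≤ rad (ff t)) →
    (G.card : ℝ) ≤ C * (N : ℝ) ^ (1 + ε) / W := by
  set δ := ε / 3 with hδdef
  have hδ : 0 < δ := by positivity
  obtain ⟨C1, hC1, h1⟩ := SU_one h hh δ hδ
  obtain ⟨C2, hC2, h2⟩ := SU_upper h hU δ hδ
  obtain ⟨C3, hC3, h3⟩ := rad_sum δ hδ
  refine ⟨C1 * C2 * C3, by nlinarith [mul_le_mul hC1 hC2 (by norm_num) (by linarith)], ?_⟩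
  intro G κ s N W ff dd hκ hs hκs hW hN hG hbad hrad
  have hκR : (1 : ℝ) ≤ κ := by exact_mod_cast hκ
  have hWR : (1 : ℝ) ≤ W := by exact_mod_cast hW
  have hκN : κ ≤ N := by
    have a1 : κ ≤ κ ^ 4 := Nat.le_self_pow (by norm_num) κ
    have a2 : 1 ≤ s ^ 6 := Nat.one_le_pow _ _ hs
    nlinarith [Nat.mul_le_mul a1 a2]
  have hN1 : 1 ≤ N := hκ.trans hκN
  have hNR : (1 : ℝ) ≤ N := by exact_mod_cast hN1
  have hmaps : ∀ t ∈ G, ff t ∈ Icc 1 N := by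
    intro t ht
    have a1 := (hG t ht).hf
    have a2 := (SU_size (hG t ht) N hN).1
    rw [mem_Icc]
    exact ⟨a1, by nlinarith⟩
  rw [Finset.card_eq_sum_card_fiberwise (f := ff) (t := Icc 1 N) hmaps, Nat.cast_sum]
  have key : ∀ f ∈ Icc 1 N, ((G.filter (fun t => ff t = f)).card : ℝ) ≤
      (C1 * (κ : ℝ) ^ δ * (C2 * (N : ℝ) ^ (1 + δ)) / W) * (1 / (rad f : ℝ)) := by
    intro f hf
    rw [mem_Icc] at hf
    have hf1 := hf.1
    have hfR : (1 : ℝ) ≤ f := by exact_mod_cast hf1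
    have hrR : (1 : ℝ) ≤ rad f := by exact_mod_cast rad_pos f
    set S := G.filter (fun t => ff t = f) with hS
    rcases S.eq_empty_or_nonempty with he | ⟨t0, ht0⟩
    · rw [he, card_empty, Nat.cast_zero]; positivity
    rw [hS, mem_filter] at ht0
    have hWf : (W : ℝ) ≤ rad f := by
      have := hrad t0 ht0.1
      rw [ht0.2] at this
      exact_mod_cast this
    have hfN : f ^ 2 ≤ N := by
      have := (SU_size (hG t0 ht0.1) N hN).1
      rwa [ht0.2] at this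
    have hb := SU_fibre G κ s N hN ff dd hG f
      (fun D => C1 * (κ : ℝ) ^ δ * (f / rad f) ^ 2 * h D) (fun D => by positivity) (by
        intro D hD hneg _
        refine (h1 D hD hneg κ s f hs hκs hf1 _ ?_).1 ?_
        · intro t ht
          rw [mem_filter, mem_filter] at ht
          have := (hG t ht.1.1).tup
          rwa [ht.1.2, ht.2] at this
        · intro t ht
          rw [mem_filter, mem_filter] at ht
          have := hbad t ht.1.1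
          rwa [ht.1.2] at this)
    refine hb.trans ?_
    rw [← Finset.mul_sum]
    have h4 := h2 N f hf1 hfN
    calc C1 * (κ : ℝ) ^ δ * (f / rad f) ^ 2 * ∑ D ∈ (Ioo (-((N / f ^ 2 + 1 : ℕ) : ℤ)) 0).filter IsFund, (h D : ℝ)
        ≤ C1 * (κ : ℝ) ^ δ * (f / rad f) ^ 2 * (C2 * (N : ℝ) ^ (1 + δ) / (f : ℝ) ^ 2) :=
          mul_le_mul_of_nonneg_left h4 (by positivity)
      _ = (C1 * (κ : ℝ) ^ δ * (C2 * (N : ℝ) ^ (1 + δ))) * (1 / (rad f : ℝ)) * (1 / (rad f : ℝ)) := by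
          field_simp
      _ ≤ (C1 * (κ : ℝ) ^ δ * (C2 * (N : ℝ) ^ (1 + δ))) * (1 / (W : ℝ)) * (1 / (rad f : ℝ)) := by
          refine mul_le_mul_of_nonneg_right ?_ (by positivity)
          refine mul_le_mul_of_nonneg_left ?_ (by positivity)
          exact one_div_le_one_div_of_le (by linarith) hWf
      _ = _ := by ring
  refine (Finset.sum_le_sum key).trans ?_
  rw [← Finset.mul_sum]
  have h5 := h3 N hN1
  have hκδ : (κ : ℝ) ^ δ ≤ (N : ℝ) ^ δ :=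
    Real.rpow_le_rpow (by linarith) (by exact_mod_cast hκN) hδ.le
  calc (C1 * (κ : ℝ) ^ δ * (C2 * (N : ℝ) ^ (1 + δ)) / W) * ∑ f ∈ Icc 1 N, (1 / (rad f : ℝ))
      ≤ (C1 * (N : ℝ) ^ δ * (C2 * (N : ℝ) ^ (1 + δ)) / W) * (C3 * (N : ℝ) ^ δ) := by
        refine mul_le_mul ?_ h5 (Finset.sum_nonneg fun _ _ => by positivity) (by positivity)
        refine div_le_div_of_nonneg_right ?_ (by linarith)
        refine mul_le_mul_of_nonneg_right ?_ (by positivity)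
        exact mul_le_mul_of_nonneg_left hκδ (by linarith)
    _ = (C1 * C2 * C3) * ((N : ℝ) ^ δ * (N : ℝ) ^ (1 + δ) * (N : ℝ) ^ δ) / W := by ring
    _ = _ := by
        rw [← Real.rpow_add (by linarith), ← Real.rpow_add (by linarith)]
        congr 3
        rw [hδdef]; ring

open Classical in
/-- tuples with `Z` coprime to `f`, `f` large -/
lemma SU_G2 (h : ℤ → ℕ) (hh : IsH5 h) (hU : Upper h) (ε : ℝ) (hε : 0 < ε) : ∃ C : ℝ, 1 ≤ C ∧
    ∀ (G : Finset Tpl) (κ s N W : ℕ) (ff : Tpl → ℕ) (dd : Tpl → ℤ), 1 ≤ κ → 1 ≤ s →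
    100 * s ^ 2 ≤ κ → 1 ≤ W → 2 ^ 22 * κ ^ 4 * s ^ 6 < N →
    (∀ t ∈ G, SUdec κ s t (ff t) (dd t)) →
    (∀ t ∈ G, ∀ q : ℕ, q.Prime → q ∣ ff t → ¬ (q : ℤ) ∣ t.2.2.2) →
    (∀ t ∈ G, W ≤ ff t) →
    (G.card : ℝ) ≤ C * (N : ℝ) ^ (1 + ε) / W := by
  set δ := ε / 3 with hδdef
  have hδ : 0 < δ := by positivity
  obtain ⟨C1, hC1, h1⟩ := SU_one h hh δ hδ
  obtain ⟨C2, hC2, h2⟩ := SU_upper h hU δ hδ
  obtain ⟨C3, hC3, h3⟩ := rad_sum δ hδ
  refine ⟨C1 * C2 * C3, by nlinarith [mul_le_mul hC1 hC2 (by norm_num) (by linarith)], ?_⟩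
  intro G κ s N W ff dd hκ hs hκs hW hN hG hbad hrad
  have hκR : (1 : ℝ) ≤ κ := by exact_mod_cast hκ
  have hWR : (1 : ℝ) ≤ W := by exact_mod_cast hW
  have hκN : κ ≤ N := by
    have a1 : κ ≤ κ ^ 4 := Nat.le_self_pow (by norm_num) κ
    have a2 : 1 ≤ s ^ 6 := Nat.one_le_pow _ _ hs
    nlinarith [Nat.mul_le_mul a1 a2]
  have hN1 : 1 ≤ N := hκ.trans hκN
  have hNR : (1 : ℝ) ≤ N := by exact_mod_cast hN1
  have hmaps : ∀ t ∈ G, ff t ∈ Icc 1 N := by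
    intro t ht
    have a1 := (hG t ht).hf
    have a2 := (SU_size (hG t ht) N hN).1
    rw [mem_Icc]
    exact ⟨a1, by nlinarith⟩
  rw [Finset.card_eq_sum_card_fiberwise (f := ff) (t := Icc 1 N) hmaps, Nat.cast_sum]
  have key : ∀ f ∈ Icc 1 N, ((G.filter (fun t => ff t = f)).card : ℝ) ≤
      (C1 * (κ : ℝ) ^ δ * (C2 * (N : ℝ) ^ (1 + δ)) / W) * (1 / (rad f : ℝ)) := by
    intro f hf
    rw [mem_Icc] at hf
    have hf1 := hf.1
    have hfR : (1 : ℝ) ≤ f := by exact_mod_cast hf1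
    have hrR : (1 : ℝ) ≤ rad f := by exact_mod_cast rad_pos f
    set S := G.filter (fun t => ff t = f) with hS
    rcases S.eq_empty_or_nonempty with he | ⟨t0, ht0⟩
    · rw [he, card_empty, Nat.cast_zero]; positivity
    rw [hS, mem_filter] at ht0
    have hWf : (W : ℝ) ≤ f := by
      have := hrad t0 ht0.1
      rw [ht0.2] at this
      exact_mod_cast this
    have hfN : f ^ 2 ≤ N := by
      have := (SU_size (hG t0 ht0.1) N hN).1
      rwa [ht0.2] at this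
    have hb := SU_fibre G κ s N hN ff dd hG f
      (fun D => C1 * (κ : ℝ) ^ δ * (f / rad f) * h D) (fun D => by positivity) (by
        intro D hD hneg _
        refine ((h1 D hD hneg κ s f hs hκs hf1 _ ?_).2 ?_).1
        · intro t ht
          rw [mem_filter, mem_filter] at ht
          have := (hG t ht.1.1).tup
          rwa [ht.1.2, ht.2] at this
        · intro t ht
          rw [mem_filter, mem_filter] at ht
          have := hbad t ht.1.1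
          rwa [ht.1.2] at this)
    refine hb.trans ?_
    rw [← Finset.mul_sum]
    have h4 := h2 N f hf1 hfN
    calc C1 * (κ : ℝ) ^ δ * (f / rad f) * ∑ D ∈ (Ioo (-((N / f ^ 2 + 1 : ℕ) : ℤ)) 0).filter IsFund, (h D : ℝ)
        ≤ C1 * (κ : ℝ) ^ δ * (f / rad f) * (C2 * (N : ℝ) ^ (1 + δ) / (f : ℝ) ^ 2) :=
          mul_le_mul_of_nonneg_left h4 (by positivity)
      _ = (C1 * (κ : ℝ) ^ δ * (C2 * (N : ℝ) ^ (1 + δ))) * (1 / (f : ℝ)) * (1 / (rad f : ℝ)) := by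
          field_simp
      _ ≤ (C1 * (κ : ℝ) ^ δ * (C2 * (N : ℝ) ^ (1 + δ))) * (1 / (W : ℝ)) * (1 / (rad f : ℝ)) := by
          refine mul_le_mul_of_nonneg_right ?_ (by positivity)
          refine mul_le_mul_of_nonneg_left ?_ (by positivity)
          exact one_div_le_one_div_of_le (by linarith) hWf
      _ = _ := by ring
  refine (Finset.sum_le_sum key).trans ?_
  rw [← Finset.mul_sum]
  have h5 := h3 N hN1
  have hκδ : (κ : ℝ) ^ δ ≤ (N : ℝ) ^ δ :=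
    Real.rpow_le_rpow (by linarith) (by exact_mod_cast hκN) hδ.le
  calc (C1 * (κ : ℝ) ^ δ * (C2 * (N : ℝ) ^ (1 + δ)) / W) * ∑ f ∈ Icc 1 N, (1 / (rad f : ℝ))
      ≤ (C1 * (N : ℝ) ^ δ * (C2 * (N : ℝ) ^ (1 + δ)) / W) * (C3 * (N : ℝ) ^ δ) := by
        refine mul_le_mul ?_ h5 (Finset.sum_nonneg fun _ _ => by positivity) (by positivity)
        refine div_le_div_of_nonneg_right ?_ (by linarith)
        refine mul_le_mul_of_nonneg_right ?_ (by positivity)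
        exact mul_le_mul_of_nonneg_left hκδ (by linarith)
    _ = (C1 * C2 * C3) * ((N : ℝ) ^ δ * (N : ℝ) ^ (1 + δ) * (N : ℝ) ^ δ) / W := by ring
    _ = _ := by
        rw [← Real.rpow_add (by linarith), ← Real.rpow_add (by linarith)]
        congr 3
        rw [hδdef]; ring

open Classical in
/-- tuples with `Z` coprime to `f`, `f` small -/
lemma SU_G3 (h : ℤ → ℕ) (hh : IsH5 h) (ε : ℝ) (hε : 0 < ε) : ∃ C : ℝ, 1 ≤ C ∧
    ∀ (G : Finset Tpl) (κ s N W : ℕ) (ff : Tpl → ℕ) (dd : Tpl → ℤ), 1 ≤ κ → 1 ≤ s →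
    100 * s ^ 2 ≤ κ → 1 ≤ W → 2 ^ 22 * κ ^ 4 * s ^ 6 < N → 512 * W ^ 2 < 859 * κ ^ 2 * s ^ 4 →
    (∀ t ∈ G, SUdec κ s t (ff t) (dd t)) →
    (∀ t ∈ G, ∀ q : ℕ, q.Prime → q ∣ ff t → ¬ (q : ℤ) ∣ t.2.2.2) →
    (∀ t ∈ G, ff t ≤ W) →
    (G.card : ℝ) ≤ C * (κ : ℝ) ^ ε * (W : ℝ) ^ 2 *
      ∑ D ∈ (Ioo (-(N : ℤ)) 0).filter IsFund, ((h D : ℝ) - 1) := by
  obtain ⟨C1, hC1, h1⟩ := SU_one h hh ε hε
  refine ⟨C1, hC1, ?_⟩
  intro G κ s N W ff dd hκ hs hκs hW hN hWκ hG hbad hle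
  have hκR : (1 : ℝ) ≤ κ := by exact_mod_cast hκ
  have hWR : (1 : ℝ) ≤ W := by exact_mod_cast hW
  set T := ∑ D ∈ (Ioo (-(N : ℤ)) 0).filter IsFund, ((h D : ℝ) - 1) with hT
  have hpos : ∀ D ∈ (Ioo (-(N : ℤ)) 0).filter IsFund, 0 ≤ ((h D : ℝ) - 1) := by
    intro D hD
    rw [mem_filter, mem_Ioo] at hD
    have : (1 : ℝ) ≤ h D := by exact_mod_cast SU_h_pos h hh D hD.2 hD.1.2
    linarith
  have hT0 : 0 ≤ T := Finset.sum_nonneg hpos
  have hmaps : ∀ t ∈ G, ff t ∈ Icc 1 W := by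
    intro t ht
    rw [mem_Icc]
    exact ⟨(hG t ht).hf, hle t ht⟩
  rw [Finset.card_eq_sum_card_fiberwise (f := ff) (t := Icc 1 W) hmaps, Nat.cast_sum]
  have key : ∀ f ∈ Icc 1 W, ((G.filter (fun t => ff t = f)).card : ℝ) ≤
      C1 * (κ : ℝ) ^ ε * W * T := by
    intro f hf
    rw [mem_Icc] at hf
    have hf1 := hf.1
    have hfR : (1 : ℝ) ≤ f := by exact_mod_cast hf1
    have hfW : (f : ℝ) ≤ W := by exact_mod_cast hf.2
    have hrR : (1 : ℝ) ≤ rad f := by exact_mod_cast rad_pos f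
    have hmaps2 : ∀ t ∈ G.filter (fun t => ff t = f), dd t ∈ (Ioo (-(N : ℤ)) 0).filter IsFund := by
      intro t ht
      rw [mem_filter] at ht
      have a1 := hG t ht.1
      obtain ⟨_, _, a3⟩ := SU_size a1 N hN
      rw [mem_filter, mem_Ioo]
      exact ⟨⟨by linarith, a1.neg⟩, a1.fund⟩
    rw [Finset.card_eq_sum_card_fiberwise (f := dd)
      (t := (Ioo (-(N : ℤ)) 0).filter IsFund) hmaps2, Nat.cast_sum, hT, Finset.mul_sum]
    refine Finset.sum_le_sum fun D hD => ?_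
    have hp := hpos D hD
    rw [mem_filter, mem_Ioo] at hD
    set S := (G.filter (fun t => ff t = f)).filter (fun t => dd t = D) with hS
    rcases S.eq_empty_or_nonempty with he | ⟨t0, ht0⟩
    · rw [he, card_empty, Nat.cast_zero]; positivity
    have hS' : ∀ t ∈ S, t ∈ G ∧ ff t = f ∧ dd t = D := by
      intro t ht
      rw [hS, mem_filter, mem_filter] at ht
      exact ⟨ht.1.1, ht.1.2, ht.2⟩
    have a2 := ((h1 D hD.2 hD.1.2 κ s f hs hκs hf1 S (by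
      intro t ht
      obtain ⟨b1, b2, b3⟩ := hS' t ht
      have := (hG t b1).tup
      rwa [b2, b3] at this)).2 (by
      intro t ht
      obtain ⟨b1, b2, b3⟩ := hS' t ht
      have := hbad t b1
      rwa [b2] at this)).2 (by
      obtain ⟨b1, b2, b3⟩ := hS' t0 ht0
      have b4 := (hG t0 b1).tup.D1
      rw [b2, b3] at b4
      have b5 : (512 : ℤ) * (W : ℤ) ^ 2 < 859 * (κ : ℤ) ^ 2 * (s : ℤ) ^ 4 := by exact_mod_cast hWκ
      have b6 : (f : ℤ) ^ 2 ≤ (W : ℤ) ^ 2 := by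
        have : (f : ℤ) ≤ W := by exact_mod_cast hf.2
        have : (0 : ℤ) ≤ f := by positivity
        nlinarith
      have hκ0 : (0 : ℤ) < κ := by exact_mod_cast hκ
      have hs0 : (0 : ℤ) < s := by exact_mod_cast hs
      have hf0 : (0 : ℤ) < (f : ℤ) ^ 2 := by
        have : (0 : ℤ) < f := by exact_mod_cast hf1
        positivity
      by_contra hc
      push Not at hc
      have b7 : (f : ℤ) ^ 2 * (-D) ≤ (W : ℤ) ^ 2 * (512 * (κ : ℤ) ^ 2 * s ^ 2) := by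
        have : 0 ≤ -D := by linarith [hD.1.2]
        exact mul_le_mul b6 hc this (by positivity)
      have b8 : (W : ℤ) ^ 2 * (512 * (κ : ℤ) ^ 2 * s ^ 2) < 859 * (κ : ℤ) ^ 4 * s ^ 6 := by
        have : 0 < (κ : ℤ) ^ 2 * (s : ℤ) ^ 2 := by positivity
        nlinarith
      have b9 : -((f : ℤ) ^ 2 * D) = (f : ℤ) ^ 2 * (-D) := by ring
      linarith)
    refine a2.trans ?_
    refine mul_le_mul_of_nonneg_right ?_ hp
    refine mul_le_mul_of_nonneg_left ?_ (by positivity)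
    calc (f : ℝ) / rad f ≤ f / 1 := div_le_div_of_nonneg_left (by linarith) (by norm_num) hrR
      _ = f := div_one _
      _ ≤ W := hfW
  refine (Finset.sum_le_sum key).trans ?_
  rw [Finset.sum_const, Nat.card_Icc, nsmul_eq_mul]
  simp only [Nat.add_sub_cancel]
  exact le_of_eq (by ring)

end Pool.Agent.helper28.LT
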