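import Pool.Agent.helper28.LT.SU2
import Pool.Agent.helper28.LT.PA

set_option autoImplicit false

/-!
# The inequality at one scale
-/

namespace Pool.Agent.helper28.LT

open Finset NumberField Pool.Agent.helper3.FT Pool.Agent.helper47.RA

lemma SU_cls_subset (M P : ℕ) (r : ℤ) : cls M P r ⊆ cls M 1 r := by
  intro m hm
  unfold cls at hm ⊢
  rw [mem_filter] at hm ⊢
  exact ⟨hm.1, by simp⟩

lemma SU_TT_subset (κ s P : ℕ) : TT κ s P ⊆ TT κ s 1 := by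
  intro t ht
  unfold TT at ht ⊢
  rw [mem_filter, mem_product, mem_product, mem_product] at ht ⊢
  exact ⟨⟨ht.1.1, SU_cls_subset _ _ _ ht.1.2.1, SU_cls_subset _ _ _ ht.1.2.2.1, ht.1.2.2.2⟩, ht.2⟩

open Classical in
lemma SU_rare : ∃ C : ℝ, 1 ≤ C ∧ ∀ κ s : ℕ, 1 ≤ s → 100 * s ^ 2 ≤ κ →
    (((TT κ s 1).filter (fun t => Rare t)).card : ℝ) ≤ C * (κ : ℝ) ^ 3 * (s : ℝ) ^ 4 := by
  obtain ⟨C1, h1, H1⟩ := rare1
  obtain ⟨C2, h2, H2⟩ := rare2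
  obtain ⟨C3, h3, H3⟩ := rare3
  obtain ⟨C4, h4, H4⟩ := rare4
  obtain ⟨C5, h5, H5⟩ := rare5
  refine ⟨C1 + C2 + C3 + C4 + C5, by linarith, ?_⟩
  intro κ s hs hκ
  have a1 := H1 κ s hs hκ
  have a2 := H2 κ s hs hκ
  have a3 := H3 κ s hs hκ
  have a4 := H4 κ s hs hκ
  have a5 := H5 κ s hs hκ
  set S1 := (TT κ s 1).filter (fun t => (t.1.1 : ℤ) ^ 2 ∣ t.2.2.2)
  set S2 := (TT κ s 1).filter (fun t => (t.1.2 : ℤ) ^ 2 ∣ t.2.2.2)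
  set S3 := (TT κ s 1).filter (fun t => (t.1.1 : ℤ) ^ 2 ∣ lam t)
  set S4 := (TT κ s 1).filter (fun t => (t.1.2 : ℤ) ^ 2 ∣ lam t)
  set S5 := (TT κ s 1).filter (fun t => (t.1.1 : ℤ) ∣ t.2.2.2 ∧ (t.1.1 : ℤ) ∣ t.2.1 ∧
      ¬ (t.1.1 : ℤ) ^ 2 ∣ t.2.2.2)
  have hsub : (TT κ s 1).filter (fun t => Rare t) ⊆ S1 ∪ (S2 ∪ (S3 ∪ (S4 ∪ S5))) := by
    intro t ht
    rw [mem_filter] at ht
    simp only [mem_union]
    by_cases b1 : (t.1.1 : ℤ) ^ 2 ∣ t.2.2.2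
    · exact Or.inl (mem_filter.2 ⟨ht.1, b1⟩)
    rcases ht.2 with b | b | b | b | b
    · exact absurd b b1
    · exact Or.inr (Or.inl (mem_filter.2 ⟨ht.1, b⟩))
    · exact Or.inr (Or.inr (Or.inl (mem_filter.2 ⟨ht.1, b⟩)))
    · exact Or.inr (Or.inr (Or.inr (Or.inl (mem_filter.2 ⟨ht.1, b⟩))))
    · exact Or.inr (Or.inr (Or.inr (Or.inr (mem_filter.2 ⟨ht.1, b.1, b.2, b1⟩))))
  have hc : ((TT κ s 1).filter (fun t => Rare t)).card ≤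
      S1.card + (S2.card + (S3.card + (S4.card + S5.card))) := by
    refine (card_le_card hsub).trans ?_
    refine (card_union_le _ _).trans (Nat.add_le_add_left ?_ _)
    refine (card_union_le _ _).trans (Nat.add_le_add_left ?_ _)
    refine (card_union_le _ _).trans (Nat.add_le_add_left ?_ _)
    exact card_union_le _ _
  have hc' : (((TT κ s 1).filter (fun t => Rare t)).card : ℝ) ≤
      S1.card + (S2.card + (S3.card + (S4.card + S5.card))) := by exact_mod_cast hc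
  calc (((TT κ s 1).filter (fun t => Rare t)).card : ℝ) ≤ _ := hc'
    _ ≤ C1 * (κ : ℝ) ^ 3 * (s : ℝ) ^ 4 + (C2 * (κ : ℝ) ^ 3 * (s : ℝ) ^ 4 +
        (C3 * (κ : ℝ) ^ 3 * (s : ℝ) ^ 4 + (C4 * (κ : ℝ) ^ 3 * (s : ℝ) ^ 4 +
        C5 * (κ : ℝ) ^ 3 * (s : ℝ) ^ 4))) := by
        refine add_le_add a1 (add_le_add a2 (add_le_add a3 (add_le_add a4 a5)))
    _ = _ := by ring

open Classical in
lemma SU_mid (h : ℤ → ℕ) (hh : IsH5 h) (hU : Upper h) : ∃ c : ℝ, 0 < c ∧ ∀ δ : ℝ, 0 < δ →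
    ∀ η : ℝ, 0 < η → ∃ C : ℝ, 1 ≤ C ∧ ∃ κ₀ : ℕ, ∀ κ w N : ℕ, κ₀ ≤ κ → 1 ≤ κ → 2 ≤ w →
    (κ : ℝ) ^ η ≤ w → w ^ 100 ≤ κ → 2 ^ 22 * κ ^ 4 * w ^ 24 < N →
    c * (κ : ℝ) ^ 4 * (w : ℝ) ^ 16 / (Real.log κ) ^ 2 ≤
      C * (κ : ℝ) ^ 3 * (w : ℝ) ^ 16 + C * (N : ℝ) ^ (1 + δ) / (w : ℝ) ^ 9 +
      C * (κ : ℝ) ^ δ * (w : ℝ) ^ 18 *
        ∑ D ∈ (Ioo (-(N : ℤ)) 0).filter IsFund, ((h D : ℝ) - 1) := by
  obtain ⟨P, hP, c, hc, hA⟩ := partA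
  refine ⟨c, hc, ?_⟩
  intro δ hδ η hη
  obtain ⟨κ₀, hA⟩ := hA η hη
  obtain ⟨CR, hCR, hR⟩ := SU_rare
  obtain ⟨C1, hC1, h1⟩ := SU_G1 h hh hU δ hδ
  obtain ⟨C2, hC2, h2⟩ := SU_G2 h hh hU δ hδ
  obtain ⟨C3, hC3, h3⟩ := SU_G3 h hh δ hδ
  refine ⟨CR + C1 + C2 + C3, by linarith, κ₀, ?_⟩
  intro κ w N hκ₀ hκ hw hηw hwκ hN
  have hw1 : 1 ≤ w := by omega
  have hs : 1 ≤ w ^ 4 := Nat.one_le_pow _ _ hw1
  have hκs : 100 * (w ^ 4) ^ 2 ≤ κ := by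
    refine le_trans ?_ hwκ
    calc 100 * (w ^ 4) ^ 2 ≤ 2 ^ 92 * w ^ 8 := by
          rw [← pow_mul]
          exact Nat.mul_le_mul (by norm_num) le_rfl
      _ ≤ w ^ 92 * w ^ 8 := Nat.mul_le_mul (Nat.pow_le_pow_left hw 92) le_rfl
      _ = w ^ 100 := by rw [← pow_add]
  have hN' : 2 ^ 22 * κ ^ 4 * (w ^ 4) ^ 6 < N := by rw [← pow_mul]; exact hN
  have hwκ1 : w ≤ κ := (Nat.le_self_pow (by norm_num) w).trans hwκ
  have hW : 1 ≤ w ^ 9 := Nat.one_le_pow _ _ hw1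
  have hWκ : 512 * (w ^ 9) ^ 2 < 859 * κ ^ 2 * (w ^ 4) ^ 4 := by
    have e1 : 512 * (w ^ 9) ^ 2 = 512 * w ^ 2 * w ^ 16 := by ring
    have e2 : 859 * κ ^ 2 * (w ^ 4) ^ 4 = 859 * κ ^ 2 * w ^ 16 := by ring
    rw [e1, e2]
    refine Nat.mul_lt_mul_of_pos_right ?_ (by positivity)
    have : w ^ 2 ≤ κ ^ 2 := Nat.pow_le_pow_left hwκ1 2
    have : 0 < κ ^ 2 := by positivity
    omega
  have hlow := hA κ w hκ₀ hηw hwκ
  set G0 := (TT κ (w ^ 4) P).filter (fun t => ∀ q < w ^ 9, ¬ Bad t q) with hG0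
  set G := G0.filter (fun t => ¬ Rare t) with hG
  -- the decomposition of the discriminants
  have hdec : ∀ t : Tpl, ∃ y : ℕ × ℤ, t ∈ G → SUdec κ (w ^ 4) t y.1 y.2 := by
    intro t
    by_cases ht : t ∈ G
    · have ht' := ht
      rw [hG, mem_filter, hG0, mem_filter] at ht'
      obtain ⟨f, D₀, hd⟩ := SU_dec κ (w ^ 4) hκ hs t (SU_TT_subset _ _ _ ht'.1.1) ht'.2
      exact ⟨(f, D₀), fun _ => hd⟩
    · exact ⟨(0, 0), fun h => absurd h ht⟩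
  choose y hy using hdec
  set G1 := G.filter (fun t => ∃ q : ℕ, q.Prime ∧ q ∣ (y t).1 ∧ (q : ℤ) ∣ t.2.2.2) with hG1
  set G' := G.filter (fun t => ¬ ∃ q : ℕ, q.Prime ∧ q ∣ (y t).1 ∧ (q : ℤ) ∣ t.2.2.2) with hG'
  set G2 := G'.filter (fun t => w ^ 9 < (y t).1) with hG2
  set G3 := G'.filter (fun t => ¬ w ^ 9 < (y t).1) with hG3
  have hsum1 : G0.card ≤ ((TT κ (w ^ 4) 1).filter (fun t => Rare t)).card + G.card := by
    have e1 : G0.card = (G0.filter (fun t => Rare t)).card + G.card := by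
      rw [hG]; exact (card_filter_add_card_filter_not _).symm
    rw [e1]
    refine Nat.add_le_add_right (card_le_card ?_) _
    intro t ht
    rw [mem_filter, hG0, mem_filter] at ht
    exact mem_filter.2 ⟨SU_TT_subset _ _ _ ht.1.1, ht.2⟩
  have hsum2 : G.card = G1.card + (G2.card + G3.card) := by
    rw [hG1, hG2, hG3, card_filter_add_card_filter_not, hG', card_filter_add_card_filter_not]
  have hGG : ∀ t ∈ G, SUdec κ (w ^ 4) t (y t).1 (y t).2 := hy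
  have hG1G : ∀ t ∈ G1, t ∈ G := fun t ht => (mem_filter.1 ht).1
  have hG'G : ∀ t ∈ G', t ∈ G := fun t ht => (mem_filter.1 ht).1
  have b1 := h1 G1 κ (w ^ 4) N (w ^ 9) (fun t => (y t).1) (fun t => (y t).2) hκ hs hκs hW hN'
    (fun t ht => hGG t (hG1G t ht)) (fun t ht => (mem_filter.1 ht).2) (by
      intro t ht
      obtain ⟨q, hq, hqf, hqZ⟩ := (mem_filter.1 ht).2
      have htG := hG1G t ht
      have hd := hGG t htG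
      obtain ⟨c1, c2, c3, c4⟩ := hd.tup.bad (y t).1 (y t).2 rfl q hq hqf hqZ
      have hgood := (mem_filter.1 (mem_filter.1 htG).1).2
      have hqw : w ^ 9 ≤ q := by
        by_contra hlt
        push Not at hlt
        exact hgood q hlt ⟨hq, c1, c2, hqZ, c4⟩
      refine hqw.trans (Nat.le_of_dvd (rad_pos _) ?_)
      unfold rad
      exact Finset.dvd_prod_of_mem (fun p => p)
        (Nat.mem_primeFactors.2 ⟨hq, hqf, by have := hd.hf; omega⟩))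
  have b2 := h2 G2 κ (w ^ 4) N (w ^ 9) (fun t => (y t).1) (fun t => (y t).2) hκ hs hκs hW hN'
    (fun t ht => hGG t (hG'G t (mem_filter.1 ht).1)) (by
      intro t ht q hq hqf hqZ
      exact (mem_filter.1 (mem_filter.1 ht).1).2 ⟨q, hq, hqf, hqZ⟩)
    (fun t ht => (mem_filter.1 ht).2.le)
  have b3 := h3 G3 κ (w ^ 4) N (w ^ 9) (fun t => (y t).1) (fun t => (y t).2) hκ hs hκs hW hN' hWκ
    (fun t ht => hGG t (hG'G t (mem_filter.1 ht).1)) (by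
      intro t ht q hq hqf hqZ
      exact (mem_filter.1 (mem_filter.1 ht).1).2 ⟨q, hq, hqf, hqZ⟩)
    (fun t ht => not_lt.1 (mem_filter.1 ht).2)
  have bR := hR κ (w ^ 4) hs hκs
  set T := ∑ D ∈ (Ioo (-(N : ℤ)) 0).filter IsFund, ((h D : ℝ) - 1) with hT
  have hT0 : 0 ≤ T := by
    refine Finset.sum_nonneg fun D hD => ?_
    rw [mem_filter, mem_Ioo] at hD
    have : (1 : ℝ) ≤ h D := by exact_mod_cast SU_h_pos h hh D hD.2 hD.1.2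
    linarith
  have hsum : (G0.card : ℝ) ≤ (((TT κ (w ^ 4) 1).filter (fun t => Rare t)).card : ℝ) +
      (G1.card + (G2.card + G3.card)) := by
    rw [hsum2] at hsum1
    exact_mod_cast hsum1
  push_cast at b1 b2 b3 bR
  have e1 : ((w : ℝ) ^ 9) ^ 2 = (w : ℝ) ^ 18 := by ring
  have e2 : ((w : ℝ) ^ 4) ^ 4 = (w : ℝ) ^ 16 := by ring
  rw [e1] at b3
  rw [e2] at bR
  have n1 : 0 ≤ (κ : ℝ) ^ 3 * (w : ℝ) ^ 16 := by positivity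
  have n2 : 0 ≤ (N : ℝ) ^ (1 + δ) / (w : ℝ) ^ 9 := by positivity
  have n3 : 0 ≤ (κ : ℝ) ^ δ * (w : ℝ) ^ 18 * T := by positivity
  have m1 : CR * (κ : ℝ) ^ 3 * (w : ℝ) ^ 16 ≤ (CR + C1 + C2 + C3) * (κ : ℝ) ^ 3 * (w : ℝ) ^ 16 := by
    have : CR * ((κ : ℝ) ^ 3 * (w : ℝ) ^ 16) ≤ (CR + C1 + C2 + C3) * ((κ : ℝ) ^ 3 * (w : ℝ) ^ 16) :=
      mul_le_mul_of_nonneg_right (by linarith) n1
    calc _ = CR * ((κ : ℝ) ^ 3 * (w : ℝ) ^ 16) := by ring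
      _ ≤ _ := this
      _ = _ := by ring
  have m2 : C1 * (N : ℝ) ^ (1 + δ) / (w : ℝ) ^ 9 + C2 * (N : ℝ) ^ (1 + δ) / (w : ℝ) ^ 9 ≤
      (CR + C1 + C2 + C3) * (N : ℝ) ^ (1 + δ) / (w : ℝ) ^ 9 := by
    have : (C1 + C2) * ((N : ℝ) ^ (1 + δ) / (w : ℝ) ^ 9) ≤
        (CR + C1 + C2 + C3) * ((N : ℝ) ^ (1 + δ) / (w : ℝ) ^ 9) :=
      mul_le_mul_of_nonneg_right (by linarith) n2
    calc _ = (C1 + C2) * ((N : ℝ) ^ (1 + δ) / (w : ℝ) ^ 9) := by ring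
      _ ≤ _ := this
      _ = _ := by ring
  have m3 : C3 * (κ : ℝ) ^ δ * (w : ℝ) ^ 18 * T ≤
      (CR + C1 + C2 + C3) * (κ : ℝ) ^ δ * (w : ℝ) ^ 18 * T := by
    have : C3 * ((κ : ℝ) ^ δ * (w : ℝ) ^ 18 * T) ≤
        (CR + C1 + C2 + C3) * ((κ : ℝ) ^ δ * (w : ℝ) ^ 18 * T) :=
      mul_le_mul_of_nonneg_right (by linarith) n3
    calc _ = C3 * ((κ : ℝ) ^ δ * (w : ℝ) ^ 18 * T) := by ring
      _ ≤ _ := this
      _ = _ := by ring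
  linarith

end Pool.Agent.helper28.LT
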