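import Pool.Agent.helper28.LT.SU3

set_option autoImplicit false

/-!
# The choice of the parameters
-/

namespace Pool.Agent.helper28.LT

open Finset NumberField Pool.Agent.helper3.FT Pool.Agent.helper47.RA Filter

/-- eventually `(log N)^2 ≤ N^a` -/
lemma SU_log (a : ℝ) (ha : 0 < a) : ∀ᶠ N : ℕ in atTop, (Real.log N) ^ 2 ≤ (N : ℝ) ^ a := by
  have h1 := (isLittleO_log_rpow_atTop (half_pos ha)).bound (show (0 : ℝ) < 1 by norm_num)
  have h2 := tendsto_natCast_atTop_atTop (R := ℝ) |>.eventually h1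
  filter_upwards [h2, eventually_ge_atTop 1] with N hN h1N
  have hN1 : (1 : ℝ) ≤ N := by exact_mod_cast h1N
  have hl : 0 ≤ Real.log N := Real.log_nonneg hN1
  rw [one_mul, Real.norm_of_nonneg hl, Real.norm_of_nonneg (by positivity)] at hN
  calc (Real.log N) ^ 2 ≤ ((N : ℝ) ^ (a / 2)) ^ 2 := pow_le_pow_left₀ hl hN 2
    _ = (N : ℝ) ^ a := by
      rw [← Real.rpow_natCast, ← Real.rpow_mul (by linarith)]; norm_num

lemma SU_big (a K : ℝ) (ha : 0 < a) : ∀ᶠ N : ℕ in atTop, K ≤ (N : ℝ) ^ a :=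
  ((tendsto_rpow_atTop ha).comp (tendsto_natCast_atTop_atTop (R := ℝ))).eventually_ge_atTop K

/-- the choice of `w` and `κ` -/
lemma SU_choice (θ : ℝ) (hθ : 0 < θ) (hθ1 : θ ≤ 1 / 1000) (N : ℕ) (hN : 1 ≤ N)
    (hx : (2 : ℝ) ^ 40 ≤ (N : ℝ) ^ (θ / 10)) : ∃ w κ : ℕ, (w : ℝ) ≤ (N : ℝ) ^ θ ∧
    (N : ℝ) ^ θ ≤ 2 * w ∧ 2 ≤ w ∧ w ^ 100 ≤ κ ∧ (κ : ℝ) ≤ N ∧ (κ : ℝ) ^ θ ≤ w ∧
    2 ^ 22 * κ ^ 4 * w ^ 24 < N ∧ (N : ℝ) ≤ 2 ^ 27 * (κ : ℝ) ^ 4 * (w : ℝ) ^ 24 := by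
  have hNR : (1 : ℝ) ≤ N := by exact_mod_cast hN
  have hN0 : (0 : ℝ) < N := by linarith
  have mono : ∀ a b : ℝ, a ≤ b → (N : ℝ) ^ a ≤ (N : ℝ) ^ b := fun a b hab =>
    Real.rpow_le_rpow_of_exponent_le hNR hab
  set y := (N : ℝ) ^ θ with hy
  have hy40 : (2 : ℝ) ^ 40 ≤ y := hx.trans (mono _ _ (by linarith))
  set w := ⌊y⌋₊ with hw
  have hy0 : 0 ≤ y := by positivity
  have hw1 : (w : ℝ) ≤ y := Nat.floor_le hy0
  have hw2 : y < w + 1 := Nat.lt_floor_add_one y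
  have hw3 : y ≤ 2 * w := by
    have : (1 : ℝ) ≤ w := by
      have : (2 : ℝ) ^ 40 < w + 1 := by linarith
      norm_num at this
      linarith
    linarith
  have hwR : (2 : ℝ) ^ 39 ≤ w := by
    have h1 : (2 : ℝ) ^ 40 ≤ 2 * w := hy40.trans hw3
    have h2 : (2 : ℝ) ^ 40 = 2 * 2 ^ 39 := by norm_num
    linarith
  have hw4 : 2 ≤ w := by
    have h1 : (2 : ℝ) ≤ w := le_trans (by norm_num) hwR
    exact_mod_cast h1
  have hw0 : (0 : ℝ) < w := by positivity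
  -- X
  set Y : ℝ := (N : ℝ) / (2 ^ 23 * (w : ℝ) ^ 24) with hY
  have hY0 : 0 < Y := by positivity
  set X : ℝ := Y ^ (1 / 4 : ℝ) with hX
  have hX0 : 0 < X := by positivity
  have hX4 : X ^ 4 = Y := by
    rw [hX, ← Real.rpow_natCast, ← Real.rpow_mul hY0.le]; norm_num
  have hYle : Y ≤ N := by
    rw [hY, div_le_iff₀ (by positivity)]
    have : (1 : ℝ) ≤ 2 ^ 23 * (w : ℝ) ^ 24 := by
      have : (1 : ℝ) ≤ (w : ℝ) ^ 24 := one_le_pow₀ (le_trans (by norm_num) hwR)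
      nlinarith
    nlinarith
  -- lower bound of Y
  have hw24 : (w : ℝ) ^ 24 ≤ (N : ℝ) ^ (24 * θ) := by
    calc (w : ℝ) ^ 24 ≤ y ^ 24 := pow_le_pow_left₀ hw0.le hw1 24
      _ = (N : ℝ) ^ (24 * θ) := by
        rw [hy, ← Real.rpow_natCast, ← Real.rpow_mul hN0.le]; congr 1; push_cast; ring
  have hYlow : (N : ℝ) ^ (1 - 24 * θ) ≤ 2 ^ 23 * Y := by
    have e1 : (N : ℝ) ^ (1 - 24 * θ) * (N : ℝ) ^ (24 * θ) = N := by
      rw [← Real.rpow_add hN0]; simp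
    have e2 : 2 ^ 23 * Y * (w : ℝ) ^ 24 = N := by
      rw [hY]; field_simp
    have h1 : (N : ℝ) ^ (1 - 24 * θ) * (w : ℝ) ^ 24 ≤ N := by
      calc _ ≤ (N : ℝ) ^ (1 - 24 * θ) * (N : ℝ) ^ (24 * θ) :=
            mul_le_mul_of_nonneg_left hw24 (by positivity)
        _ = N := e1
    have h2 : 0 < (w : ℝ) ^ 24 := by positivity
    exact le_of_mul_le_mul_right (by linarith) h2
  have hYbig : (2 : ℝ) ^ 10 ≤ Y := by
    have h1 : (2 : ℝ) ^ 40 ≤ (N : ℝ) ^ (1 - 24 * θ) := hx.trans (mono _ _ (by linarith))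
    have h2 : (2 : ℝ) ^ 40 ≤ 2 ^ 23 * Y := h1.trans hYlow
    norm_num at h2 ⊢
    linarith
  have hXbig : (2 : ℝ) ≤ X := by
    by_contra hc
    push Not at hc
    have : X ^ 4 < 2 ^ 4 := pow_lt_pow_left₀ hc hX0.le (by norm_num)
    rw [hX4] at this
    norm_num at this hYbig
    linarith
  set κ := ⌊X⌋₊ with hκ
  have hκ1 : (κ : ℝ) ≤ X := Nat.floor_le hX0.le
  have hκ2 : X < κ + 1 := Nat.lt_floor_add_one X
  have hκ3 : X ≤ 2 * κ := by linarith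
  have hκ0 : (1 : ℝ) ≤ κ := by linarith
  have hκ4 : (κ : ℝ) ^ 4 ≤ Y := by
    rw [← hX4]; exact pow_le_pow_left₀ (by linarith) hκ1 4
  have hκ5 : Y ≤ 16 * (κ : ℝ) ^ 4 := by
    rw [← hX4]
    calc X ^ 4 ≤ (2 * κ) ^ 4 := pow_le_pow_left₀ hX0.le hκ3 4
      _ = 16 * (κ : ℝ) ^ 4 := by ring
  refine ⟨w, κ, hw1, hw3, hw4, ?_, ?_, ?_, ?_, ?_⟩
  · -- w ^ 100 ≤ κ
    have h1 : ((w : ℝ) ^ 100) ^ 4 ≤ (κ : ℝ) ^ 4 := by
      have h2 : ((w : ℝ) ^ 100) ^ 4 ≤ (N : ℝ) ^ (400 * θ) := by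
        calc ((w : ℝ) ^ 100) ^ 4 = (w : ℝ) ^ 400 := by rw [← pow_mul]
          _ ≤ y ^ 400 := pow_le_pow_left₀ hw0.le hw1 400
          _ = (N : ℝ) ^ (400 * θ) := by
            rw [hy, ← Real.rpow_natCast, ← Real.rpow_mul hN0.le]; congr 1; push_cast; ring
      have h3 : (2 : ℝ) ^ 40 * (N : ℝ) ^ (400 * θ) ≤ (N : ℝ) ^ (1 - 24 * θ) := by
        calc (2 : ℝ) ^ 40 * (N : ℝ) ^ (400 * θ) ≤ (N : ℝ) ^ (θ / 10) * (N : ℝ) ^ (400 * θ) :=
              mul_le_mul_of_nonneg_right hx (by positivity)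
          _ = (N : ℝ) ^ (θ / 10 + 400 * θ) := (Real.rpow_add hN0 _ _).symm
          _ ≤ _ := mono _ _ (by linarith)
      have h4 : (2 : ℝ) ^ 40 * (N : ℝ) ^ (400 * θ) ≤ 2 ^ 23 * (16 * (κ : ℝ) ^ 4) :=
        h3.trans (hYlow.trans (mul_le_mul_of_nonneg_left hκ5 (by norm_num)))
      have h5 : 0 ≤ (N : ℝ) ^ (400 * θ) := by positivity
      norm_num at h4
      nlinarith
    have h6 : (w : ℝ) ^ 100 ≤ κ := le_of_pow_le_pow_left₀ (by norm_num) (by linarith) h1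
    exact_mod_cast h6
  · calc (κ : ℝ) ≤ (κ : ℝ) ^ 4 := le_self_pow₀ hκ0 (by norm_num)
      _ ≤ N := hκ4.trans hYle
  · -- κ ^ θ ≤ w
    have h1 : (κ : ℝ) ≤ (N : ℝ) ^ (1 / 4 : ℝ) := by
      calc (κ : ℝ) ≤ X := hκ1
        _ ≤ (N : ℝ) ^ (1 / 4 : ℝ) := Real.rpow_le_rpow hY0.le hYle (by norm_num)
    have h2 : (κ : ℝ) ^ θ ≤ (N : ℝ) ^ (θ / 4) := by
      calc (κ : ℝ) ^ θ ≤ ((N : ℝ) ^ (1 / 4 : ℝ)) ^ θ := Real.rpow_le_rpow (by linarith) h1 hθ.le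
        _ = (N : ℝ) ^ (θ / 4) := by rw [← Real.rpow_mul hN0.le]; congr 1; ring
    have h3 : (2 : ℝ) ^ 40 * (N : ℝ) ^ (θ / 4) ≤ y := by
      calc (2 : ℝ) ^ 40 * (N : ℝ) ^ (θ / 4) ≤ (N : ℝ) ^ (θ / 10) * (N : ℝ) ^ (θ / 4) :=
            mul_le_mul_of_nonneg_right hx (by positivity)
        _ = (N : ℝ) ^ (θ / 10 + θ / 4) := (Real.rpow_add hN0 _ _).symm
        _ ≤ _ := mono _ _ (by linarith)
    have h4 : 0 ≤ (N : ℝ) ^ (θ / 4) := by positivity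
    norm_num at h3
    nlinarith
  · have h1 : (2 : ℝ) ^ 22 * (κ : ℝ) ^ 4 * (w : ℝ) ^ 24 < N := by
      have h2 : 2 ^ 23 * Y * (w : ℝ) ^ 24 = N := by rw [hY]; field_simp
      have h3 : (0 : ℝ) < (w : ℝ) ^ 24 := by positivity
      have h4 : (κ : ℝ) ^ 4 * (w : ℝ) ^ 24 ≤ Y * (w : ℝ) ^ 24 :=
        mul_le_mul_of_nonneg_right hκ4 h3.le
      have h5 : 0 < (κ : ℝ) ^ 4 * (w : ℝ) ^ 24 := by positivity
      norm_num at h2 ⊢
      nlinarith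
    exact_mod_cast h1
  · have h2 : 2 ^ 23 * Y * (w : ℝ) ^ 24 = N := by rw [hY]; field_simp
    have h3 : (0 : ℝ) < (w : ℝ) ^ 24 := by positivity
    calc (N : ℝ) = 2 ^ 23 * Y * (w : ℝ) ^ 24 := h2.symm
      _ ≤ 2 ^ 23 * (16 * (κ : ℝ) ^ 4) * (w : ℝ) ^ 24 := by
        refine mul_le_mul_of_nonneg_right (mul_le_mul_of_nonneg_left hκ5 (by norm_num)) h3.le
      _ = _ := by ring

open Classical in
/-- SU -/
theorem main_ineq (h : ℤ → ℕ) (hh : ∀ (K : Type) [Field K] [NumberField K],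
    Module.finrank ℚ K = 2 → h (NumberField.discr K) = h5 K) (hU : Upper h) (ε : ℝ) (hε : 0 < ε) :
    ∃ N₀ : ℕ, ∀ N : ℕ, N₀ ≤ N → (N : ℝ) ^ (1 - ε) ≤
      ∑ D ∈ (Ioo (-(N : ℤ)) 0).filter IsFund, ((h D : ℝ) - 1) := by
  obtain ⟨c, hc, H⟩ := SU_mid h hh hU
  set θ : ℝ := min ε 1 / 1000 with hθ
  have hθ0 : 0 < θ := by
    have : 0 < min ε 1 := lt_min hε (by norm_num)
    positivity
  have hθ1 : θ ≤ 1 / 1000 := by
    have : min ε 1 ≤ 1 := min_le_right _ _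
    rw [hθ]; linarith
  have hθε : 1000 * θ ≤ ε := by
    have : min ε 1 ≤ ε := min_le_left _ _
    rw [hθ]; linarith
  obtain ⟨C, hC, κ₀, H⟩ := H (θ / 10) (by positivity) θ hθ0
  rw [← Filter.eventually_atTop]
  filter_upwards [SU_log (θ / 10) (by positivity), SU_big (θ / 10) (2 ^ 40) (by positivity),
    SU_big (θ / 10) (2 ^ 40 * C / c) (by positivity), SU_big (θ / 10) (2 * κ₀) (by positivity),
    eventually_ge_atTop 1] with N hlog hx hxC hxκ hN1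
  have hNR : (1 : ℝ) ≤ N := by exact_mod_cast hN1
  have hN0 : (0 : ℝ) < N := by linarith
  have mono : ∀ a b : ℝ, a ≤ b → (N : ℝ) ^ a ≤ (N : ℝ) ^ b := fun a b hab =>
    Real.rpow_le_rpow_of_exponent_le hNR hab
  obtain ⟨w, κ, w1, w2, w3, w4, w5, w6, w7, w8⟩ := SU_choice θ hθ0 hθ1 N hN1 hx
  set x := (N : ℝ) ^ (θ / 10) with hxdef
  have hx0 : 0 < x := by positivity
  have hx1 : 1 ≤ x := le_trans (by norm_num) hx
  have hx10 : x ^ 10 = (N : ℝ) ^ θ := by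
    rw [hxdef, ← Real.rpow_natCast, ← Real.rpow_mul hN0.le]; congr 1; push_cast; ring
  have hwR : (2 : ℝ) ≤ w := by exact_mod_cast w3
  have hκw : (w : ℝ) ^ 100 ≤ κ := by exact_mod_cast w4
  have hwκ : (w : ℝ) ≤ κ := (le_self_pow₀ (by linarith) (by norm_num)).trans hκw
  have hxw : x ^ 10 ≤ 2 * w := by rw [hx10]; exact w2
  have hx2 : x ≤ x ^ 10 := le_self_pow₀ hx1 (by norm_num)
  have hκ₀ : κ₀ ≤ κ := by
    have : (κ₀ : ℝ) ≤ κ := by linarith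
    exact_mod_cast this
  have hκ1 : 1 ≤ κ := by
    have : (1 : ℝ) ≤ κ := by linarith
    exact_mod_cast this
  have main := H κ w N hκ₀ hκ1 w3 w6 w4 w7
  set T := ∑ D ∈ (Ioo (-(N : ℤ)) 0).filter IsFund, ((h D : ℝ) - 1) with hT
  set L := Real.log κ with hL
  have hκR : (2 : ℝ) ≤ κ := hwR.trans hwκ
  have hL0 : 0 < L := Real.log_pos (by linarith)
  have hLx : L ^ 2 ≤ x := by
    refine le_trans ?_ hlog
    exact pow_le_pow_left₀ hL0.le (Real.log_le_log (by linarith) w5) 2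
  have hL2 : 0 < L ^ 2 := by positivity
  have hw0 : (0 : ℝ) < w := by linarith
  have hκ0 : (0 : ℝ) < κ := by linarith
  -- constants
  have hxC' : 2 ^ 40 * C ≤ c * x := by
    rw [div_le_iff₀ hc] at hxC
    linarith
  have hC0 : 0 < C := by linarith
  -- first error term
  have e1 : C * (κ : ℝ) ^ 3 * (w : ℝ) ^ 16 ≤ (1 / 4) * (c * (κ : ℝ) ^ 4 * (w : ℝ) ^ 16 / L ^ 2) := by
    rw [← sub_nonneg]
    have h1 : 4 * C * L ^ 2 ≤ c * κ := by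
      calc 4 * C * L ^ 2 ≤ 4 * C * x := mul_le_mul_of_nonneg_left hLx (by positivity)
        _ ≤ c * x * x := by
          refine mul_le_mul_of_nonneg_right ?_ hx0.le
          norm_num at hxC'
          linarith
        _ = c * x ^ 2 := by ring
        _ ≤ c * κ := by
          refine mul_le_mul_of_nonneg_left ?_ hc.le
          have h2 : x ^ 2 * 2 ≤ x ^ 10 := by
            have : (2 : ℝ) ≤ x ^ 8 := by
              calc (2 : ℝ) ≤ x := le_trans (by norm_num) hx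
                _ ≤ x ^ 8 := le_self_pow₀ hx1 (by norm_num)
            calc x ^ 2 * 2 ≤ x ^ 2 * x ^ 8 := mul_le_mul_of_nonneg_left this (by positivity)
              _ = x ^ 10 := by ring
          linarith
    have h2 : (1 / 4) * (c * (κ : ℝ) ^ 4 * (w : ℝ) ^ 16 / L ^ 2) - C * (κ : ℝ) ^ 3 * (w : ℝ) ^ 16 =
        (κ : ℝ) ^ 3 * (w : ℝ) ^ 16 * (c * κ - 4 * C * L ^ 2) / (4 * L ^ 2) := by
      field_simp
    rw [h2]
    have : 0 ≤ c * κ - 4 * C * L ^ 2 := by linarith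
    positivity
  -- second error term
  have e2 : C * (N : ℝ) ^ (1 + θ / 10) / (w : ℝ) ^ 9 ≤
      (1 / 4) * (c * (κ : ℝ) ^ 4 * (w : ℝ) ^ 16 / L ^ 2) := by
    have h1 : (N : ℝ) ^ (1 + θ / 10) = N * x := by
      rw [Real.rpow_add hN0, Real.rpow_one]
    rw [h1]
    have h2 : C * (N * x) / (w : ℝ) ^ 9 ≤ C * (2 ^ 27 * (κ : ℝ) ^ 4 * (w : ℝ) ^ 24 * x) / (w : ℝ) ^ 9 := by
      refine div_le_div_of_nonneg_right ?_ (by positivity)
      refine mul_le_mul_of_nonneg_left ?_ hC0.le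
      exact mul_le_mul_of_nonneg_right w8 hx0.le
    refine h2.trans ?_
    rw [← sub_nonneg]
    have h3 : 2 ^ 29 * C * x * L ^ 2 ≤ c * w := by
      calc 2 ^ 29 * C * x * L ^ 2 ≤ 2 ^ 29 * C * x * x :=
            mul_le_mul_of_nonneg_left hLx (by positivity)
        _ ≤ c * x * x * x := by
          refine mul_le_mul_of_nonneg_right (mul_le_mul_of_nonneg_right ?_ hx0.le) hx0.le
          norm_num at hxC' ⊢
          linarith
        _ = c * x ^ 3 := by ring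
        _ ≤ c * w := by
          refine mul_le_mul_of_nonneg_left ?_ hc.le
          have h2 : x ^ 3 * 2 ≤ x ^ 10 := by
            have : (2 : ℝ) ≤ x ^ 7 := by
              calc (2 : ℝ) ≤ x := le_trans (by norm_num) hx
                _ ≤ x ^ 7 := le_self_pow₀ hx1 (by norm_num)
            calc x ^ 3 * 2 ≤ x ^ 3 * x ^ 7 := mul_le_mul_of_nonneg_left this (by positivity)
              _ = x ^ 10 := by ring
          linarith
    have h4 : (1 / 4) * (c * (κ : ℝ) ^ 4 * (w : ℝ) ^ 16 / L ^ 2) -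
        C * (2 ^ 27 * (κ : ℝ) ^ 4 * (w : ℝ) ^ 24 * x) / (w : ℝ) ^ 9 =
        (κ : ℝ) ^ 4 * (w : ℝ) ^ 15 * (c * w - 2 ^ 29 * C * x * L ^ 2) / (4 * L ^ 2) := by
      field_simp
      ring
    rw [h4]
    have : 0 ≤ c * w - 2 ^ 29 * C * x * L ^ 2 := by linarith
    positivity
  have e3 : (1 / 2) * (c * (κ : ℝ) ^ 4 * (w : ℝ) ^ 16 / L ^ 2) ≤
      C * (κ : ℝ) ^ (θ / 10) * (w : ℝ) ^ 18 * T := by linarith
  have hκx : (κ : ℝ) ^ (θ / 10) ≤ x := Real.rpow_le_rpow hκ0.le w5 (by positivity)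
  have hT0 : 0 < T := by
    have h1 : 0 < (1 / 2) * (c * (κ : ℝ) ^ 4 * (w : ℝ) ^ 16 / L ^ 2) := by positivity
    have h2 : 0 < C * (κ : ℝ) ^ (θ / 10) * (w : ℝ) ^ 18 := by positivity
    by_contra hc'
    push Not at hc'
    have : C * (κ : ℝ) ^ (θ / 10) * (w : ℝ) ^ 18 * T ≤ 0 := mul_nonpos_of_nonneg_of_nonpos h2.le hc'
    linarith
  -- conclusion
  have e4 : c * (κ : ℝ) ^ 4 ≤ 2 * C * x ^ 2 * (w : ℝ) ^ 2 * T := by
    have h1 : (1 / 2) * (c * (κ : ℝ) ^ 4 * (w : ℝ) ^ 16 / L ^ 2) ≤ C * x * (w : ℝ) ^ 18 * T := by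
      refine e3.trans ?_
      refine mul_le_mul_of_nonneg_right ?_ hT0.le
      refine mul_le_mul_of_nonneg_right ?_ (by positivity)
      exact mul_le_mul_of_nonneg_left hκx hC0.le
    have h2 : (1 / 2) * (c * (κ : ℝ) ^ 4 * (w : ℝ) ^ 16 / x) ≤ (1 / 2) * (c * (κ : ℝ) ^ 4 * (w : ℝ) ^ 16 / L ^ 2) := by
      refine mul_le_mul_of_nonneg_left ?_ (by norm_num)
      exact div_le_div_of_nonneg_left (by positivity) hL2 hLx
    have h3 := h2.trans h1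
    have h4 : c * (κ : ℝ) ^ 4 * (w : ℝ) ^ 16 ≤ 2 * C * x ^ 2 * (w : ℝ) ^ 18 * T := by
      have h5 := mul_le_mul_of_nonneg_right h3 (show (0 : ℝ) ≤ 2 * x by positivity)
      calc c * (κ : ℝ) ^ 4 * (w : ℝ) ^ 16 = (1 / 2) * (c * (κ : ℝ) ^ 4 * (w : ℝ) ^ 16 / x) * (2 * x) := by
            field_simp
        _ ≤ _ := h5
        _ = _ := by ring
    have h6 : (c * (κ : ℝ) ^ 4) * (w : ℝ) ^ 16 ≤ (2 * C * x ^ 2 * (w : ℝ) ^ 2 * T) * (w : ℝ) ^ 16 := by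
      calc _ = c * (κ : ℝ) ^ 4 * (w : ℝ) ^ 16 := by ring
        _ ≤ _ := h4
        _ = _ := by ring
    exact le_of_mul_le_mul_right h6 (by positivity)
  have e5 : c * N ≤ 2 ^ 28 * C * x ^ 2 * (w : ℝ) ^ 26 * T := by
    calc c * N ≤ c * (2 ^ 27 * (κ : ℝ) ^ 4 * (w : ℝ) ^ 24) := mul_le_mul_of_nonneg_left w8 hc.le
      _ = 2 ^ 27 * (w : ℝ) ^ 24 * (c * (κ : ℝ) ^ 4) := by ring
      _ ≤ 2 ^ 27 * (w : ℝ) ^ 24 * (2 * C * x ^ 2 * (w : ℝ) ^ 2 * T) :=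
        mul_le_mul_of_nonneg_left e4 (by positivity)
      _ = _ := by ring
  have e6 : (w : ℝ) ^ 26 ≤ x ^ 260 := by
    calc (w : ℝ) ^ 26 ≤ (x ^ 10) ^ 26 := pow_le_pow_left₀ hw0.le (by rw [hx10]; exact w1) 26
      _ = x ^ 260 := by rw [← pow_mul]
  have e7 : (N : ℝ) ≤ x ^ 263 * T := by
    have h1 : c * N ≤ c * (x ^ 263 * T) := by
      calc c * N ≤ 2 ^ 28 * C * x ^ 2 * (w : ℝ) ^ 26 * T := e5
        _ ≤ 2 ^ 28 * C * x ^ 2 * x ^ 260 * T := by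
          refine mul_le_mul_of_nonneg_right ?_ hT0.le
          exact mul_le_mul_of_nonneg_left e6 (by positivity)
        _ ≤ c * x * x ^ 2 * x ^ 260 * T := by
          refine mul_le_mul_of_nonneg_right ?_ hT0.le
          refine mul_le_mul_of_nonneg_right ?_ (by positivity)
          refine mul_le_mul_of_nonneg_right ?_ (by positivity)
          norm_num at hxC' ⊢
          linarith
        _ = _ := by ring
    exact le_of_mul_le_mul_left h1 hc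
  have e8 : x ^ 263 ≤ (N : ℝ) ^ ε := by
    rw [hxdef, ← Real.rpow_natCast, ← Real.rpow_mul hN0.le]
    refine mono _ _ ?_
    push_cast
    linarith
  have e9 : (N : ℝ) ≤ (N : ℝ) ^ ε * T := e7.trans (mul_le_mul_of_nonneg_right e8 hT0.le)
  have e10 : (N : ℝ) ^ (1 - ε) * (N : ℝ) ^ ε = N := by
    rw [← Real.rpow_add hN0]; simp
  have e11 : (N : ℝ) ^ (1 - ε) * (N : ℝ) ^ ε ≤ T * (N : ℝ) ^ ε := by
    rw [e10]; linarith
  exact le_of_mul_le_mul_right e11 (by positivity)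

end Pool.Agent.helper28.LT
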